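import Pool.Agent.Zk1.DH.RecD
import Pool.Agent.W571.SD.Grow

set_option autoImplicit false

/-!
# The local theorem: comparison of the half integral with its main part
-/

namespace Pool.Agent.Zk1.DH

open Complex Filter Topology MeasureTheory Set

namespace LocG

open Rec

lemma log_ge {v : ℝ} (h0 : 0 ≤ v) (h1 : v ≤ 1) : v / 2 ≤ Real.log (1 + v) := by
  have h := Real.one_sub_inv_le_log_of_pos (by linarith : (0 : ℝ) < 1 + v)
  refine le_trans ?_ h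
  rw [le_sub_iff_add_le, ← le_sub_iff_add_le', inv_le_comm₀ (by linarith) (by linarith)]
  rw [inv_le_comm₀ (by linarith) (by linarith), inv_eq_one_div, div_le_iff₀ (by linarith)]
  nlinarith

lemma sup_bd {η y X Y : ℝ} (hη : 0 < η) (hX : 0 < X) (hy : |y| ≤ Y) (hY : η * Y ≤ 1 / 4) :
    η * |y| - 1 / 2 * Real.log (1 + (y / X) ^ 2) ≤ η ^ 2 * X ^ 2 := by
  rcases le_or_gt |y| X with h | h
  · have hv : (y / X) ^ 2 ≤ 1 := by
      rw [div_pow, div_le_one (by positivity), ← sq_abs]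
      exact pow_le_pow_left₀ (abs_nonneg _) h 2
    have h1 := log_ge (sq_nonneg (y / X)) hv
    have h2 : η * |y| - (y / X) ^ 2 / 4 ≤ η ^ 2 * X ^ 2 := by
      have e : (y / X) ^ 2 = (|y| / X) ^ 2 := by rw [div_pow, div_pow, sq_abs]
      have e2 : η * |y| = (η * X) * (|y| / X) := by field_simp
      rw [e, e2, ← mul_pow]
      nlinarith [sq_nonneg (η * X - |y| / X / 2)]
    linarith
  · have hv : (1 : ℝ) ≤ (y / X) ^ 2 := by
      rw [div_pow, one_le_div (by positivity), ← sq_abs y]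
      exact pow_le_pow_left₀ hX.le h.le 2
    have h1 : Real.log 2 ≤ Real.log (1 + (y / X) ^ 2) := Real.log_le_log (by norm_num) (by linarith)
    have h2 := Real.log_two_gt_d9
    have h3 : η * |y| ≤ 1 / 4 := le_trans (by gcongr) hY
    have h4 : 0 ≤ η ^ 2 * X ^ 2 := by positivity
    linarith

lemma logX {k : ℕ} (hk : 2 ≤ k) : 2 / (k : ℝ) ≤ Real.log (((k : ℝ) + 1) / (k - 1)) := by
  have hk' : (2 : ℝ) ≤ k := by exact_mod_cast hk
  have h1 : |(1 / (k : ℝ))| < 1 := by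
    rw [abs_of_pos (by positivity), div_lt_one (by positivity)]
    linarith
  have h2 := Real.hasSum_log_sub_log_of_abs_lt_one h1
  have h3 := h2.summable
  have h4 := h2.tsum_eq
  have h5 : (2 : ℝ) * (1 / (2 * (0 : ℕ) + 1)) * (1 / (k : ℝ)) ^ (2 * 0 + 1) ≤
      ∑' j : ℕ, (2 : ℝ) * (1 / (2 * (j : ℝ) + 1)) * (1 / (k : ℝ)) ^ (2 * j + 1) :=
    h3.le_tsum 0 (fun j _ => by positivity)
  rw [h4] at h5
  have h6 : Real.log (1 + 1 / (k : ℝ)) - Real.log (1 - 1 / (k : ℝ)) =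
      Real.log (((k : ℝ) + 1) / (k - 1)) := by
    have hk1 : (0 : ℝ) < k - 1 := by linarith
    rw [← Real.log_div (by positivity) (by
      have : 1 / (k : ℝ) < 1 := by rw [div_lt_one (by positivity)]; linarith
      linarith)]
    congr 1
    field_simp
  rw [h6] at h5
  refine le_trans (le_of_eq ?_) h5
  norm_num
  ring

lemma norm_low {w : ℂ} {x X : ℝ} (hX : 1 ≤ X) (h : X ≤ w.re - x) :
    Real.log X + 1 / 2 * Real.log (1 + (w.im / X) ^ 2) ≤ Real.log ‖w - x‖ := by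
  have hX0 : 0 < X := by linarith
  have h1 : X ^ 2 * (1 + (w.im / X) ^ 2) ≤ ‖w - x‖ ^ 2 := by
    rw [← Complex.normSq_eq_norm_sq, Complex.normSq_apply]
    simp only [Complex.sub_re, Complex.sub_im, Complex.ofReal_re, Complex.ofReal_im, sub_zero]
    have e : X ^ 2 * (1 + (w.im / X) ^ 2) = X ^ 2 + w.im ^ 2 := by field_simp
    rw [e]
    nlinarith
  have h2 : 0 < X ^ 2 * (1 + (w.im / X) ^ 2) := by positivity
  have h3 := Real.log_le_log h2 h1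
  rw [Real.log_mul (by positivity) (by positivity), Real.log_pow, Real.log_pow] at h3
  push_cast at h3
  linarith

lemma inv_pow_le {w : ℂ} {x X : ℝ} {m n : ℕ} (hX : 1 ≤ X) (h : X ≤ w.re - x) (hm : n ≤ m) :
    ‖((w - x) ^ m)⁻¹‖ ≤ Real.exp (-(n * (Real.log X + 1 / 2 * Real.log (1 + (w.im / X) ^ 2)))) := by
  have h1 := norm_low (w := w) hX h
  have hpos : 0 < ‖w - x‖ := by
    rw [norm_pos_iff]
    intro h0
    have := congrArg Complex.re h0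
    simp at this
    linarith
  have h2 : 0 ≤ Real.log X + 1 / 2 * Real.log (1 + (w.im / X) ^ 2) := by
    have := Real.log_nonneg hX
    have := Real.log_nonneg (by linarith [sq_nonneg (w.im / X)] : (1 : ℝ) ≤ 1 + (w.im / X) ^ 2)
    linarith
  rw [norm_inv, norm_pow, ← Real.exp_log hpos, ← Real.exp_nat_mul, ← Real.exp_neg]
  apply Real.exp_le_exp.2
  have h3 : (n : ℝ) ≤ m := by exact_mod_cast hm
  have : (n : ℝ) * (Real.log X + 1 / 2 * Real.log (1 + (w.im / X) ^ 2)) ≤ m * Real.log ‖w - x‖ :=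
    mul_le_mul h3 h1 h2 (by positivity)
  linarith

/-- The situation with slightly smaller region. -/
structure LHr (κ ε η B C3 R ρ Y : ℝ) (K0 n : ℕ) (F F0 : ℂ → ℂ) (D : ℕ → ℂ → ℂ) : Prop where
  diff : Differentiable ℂ F
  symm : ∀ z : ℂ, F (-((starRingEnd ℂ) z)) = (starRingEnd ℂ) (F z)
  reg : ∀ w : ℂ, 1 - κ ≤ w.re → w.re ≤ ρ + R + 1 → |w.im| ≤ Y →
    DifferentiableAt ℂ F0 w ∧ F0 w ≠ 0 ∧ ‖logDeriv F0 w - n‖ ≤ η * n
  Ddiff : ∀ k ∈ Finset.Ico 2 K0, ∀ w : ℂ, 1 - κ ≤ w.re → w.re ≤ ρ + R + 1 → |w.im| ≤ Y →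
    DifferentiableAt ℂ (D k) w
  Dbd : ∀ k ∈ Finset.Ico 2 K0, ∀ w : ℂ, 1 - κ ≤ w.re → w.re ≤ ρ + R + 1 → |w.im| ≤ Y →
    ‖D k w‖ ≤ (((k : ℝ) + 1) / (k - 1)) ^ ((1 - ε) * n) * Real.exp (-(2 * n * w.re / (k + 1)))
  Ebd : ∀ w : ℂ, 1 - κ ≤ w.re → w.re ≤ ρ + R + 1 → |w.im| ≤ Y →
    ‖F w - F0 w * (1 + ∑ k ∈ Finset.Ico 2 K0, D k w)‖ ≤ ‖F0 1‖ * Real.exp (B * n)
  grow : ∀ w : ℂ, |w.re| ≤ R + 2 → |w.im| ≤ Y → ‖F w‖ ≤ ‖F0 1‖ * Real.exp (C3 * n)

/-- Conditions on the parameters. -/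
structure Par (κ ε η B C3 R ρ Y : ℝ) (K0 : ℕ) : Prop where
  κ0 : 0 < κ
  κ1 : κ ≤ 1 / 4
  ε0 : 0 < ε
  ε1 : ε ≤ 1 / 2
  R1 : 1 ≤ R
  B0 : 0 < B
  ρ3 : 3 ≤ ρ
  ρB : B + 2 ≤ Real.log ρ
  C30 : 0 < C3
  Y1 : 1 ≤ Y
  YC : 2 * (ρ + R) + B + C3 + 13 ≤ Real.log Y
  K3 : 3 ≤ K0
  η0 : 0 < η
  η1 : η ≤ ε / 8
  η2 : 9 * η ^ 2 ≤ ε / (2 * K0)
  η3 : η * (ρ + R + Y + 2) ≤ 1 / 4

section

variable {κ ε η B C3 R ρ Y : ℝ} {K0 n : ℕ} {F F0 : ℂ → ℂ} {D : ℕ → ℂ → ℂ}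

lemma gr (h : LHr κ ε η B C3 R ρ Y K0 n F F0 D) {a b : ℂ} (ha1 : 1 - κ ≤ a.re) (ha2 : a.re ≤ ρ + R + 1)
    (ha3 : |a.im| ≤ Y) (hb1 : 1 - κ ≤ b.re) (hb2 : b.re ≤ ρ + R + 1) (hb3 : |b.im| ≤ Y) :
    ‖F0 b‖ ≤ ‖F0 a‖ * Real.exp (n * (b - a).re + η * n * ‖b - a‖) := by
  refine Pool.Agent.W571.SD.grow a b fun t ht0 ht1 => ?_
  have e1 : (a + t * (b - a)).re = (1 - t) * a.re + t * b.re := by
    simp only [Complex.add_re, Complex.re_ofReal_mul, Complex.sub_re]; ring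
  have e2 : (a + t * (b - a)).im = (1 - t) * a.im + t * b.im := by
    simp only [Complex.add_im, Complex.im_ofReal_mul, Complex.sub_im]; ring
  have h1 : 0 ≤ 1 - t := by linarith
  refine h.reg _ ?_ ?_ ?_
  · rw [e1]; nlinarith
  · rw [e1]; nlinarith
  · rw [e2]
    calc |(1 - t) * a.im + t * b.im| ≤ |(1 - t) * a.im| + |t * b.im| := abs_add_le _ _
      _ = (1 - t) * |a.im| + t * |b.im| := by rw [abs_mul, abs_mul, abs_of_nonneg h1, abs_of_nonneg ht0]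
      _ ≤ (1 - t) * Y + t * Y := by gcongr
      _ = Y := by ring

/-- `F0` on horizontal lines and everywhere: crude bound -/
lemma crude0 (hP : Par κ ε η B C3 R ρ Y K0) (h : LHr κ ε η B C3 R ρ Y K0 n F F0 D) {w : ℂ}
    (h1 : 1 - κ ≤ w.re) (h2 : w.re ≤ ρ + R + 1) (h3 : |w.im| ≤ Y) :
    ‖F0 w‖ ≤ ‖F0 1‖ * Real.exp ((ρ + R + 1) * n) := by
  have := hP.κ0; have := hP.κ1; have := hP.R1; have := hP.ρ3; have := hP.Y1; have := hP.η0; have := hP.η3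
  refine (gr h (a := 1) (b := w) (by simp; linarith) (by simp; linarith) (by simp; linarith) h1 h2 h3).trans ?_
  apply mul_le_mul_of_nonneg_left _ (norm_nonneg _)
  apply Real.exp_le_exp.2
  have h4 : ‖w - 1‖ ≤ (ρ + R + 1) + Y := by
    refine (Complex.norm_le_abs_re_add_abs_im _).trans ?_
    simp only [Complex.sub_re, Complex.sub_im, Complex.one_re, Complex.one_im, sub_zero]
    have : |w.re - 1| ≤ ρ + R + 1 := by rw [abs_le]; constructor <;> linarith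
    linarith
  have h5 : η * n * ‖w - 1‖ ≤ 1 / 4 * n := by
    calc η * n * ‖w - 1‖ ≤ η * n * ((ρ + R + 1) + Y) := by gcongr
      _ = (η * (ρ + R + 1 + Y)) * n := by ring
      _ ≤ (η * (ρ + R + Y + 2)) * n := by
        apply mul_le_mul_of_nonneg_right _ (by positivity)
        apply mul_le_mul_of_nonneg_left _ (by positivity)
        linarith
      _ ≤ 1 / 4 * n := by gcongr
  have h6 : (n : ℝ) * (w - 1).re ≤ n * (ρ + R) := by
    apply mul_le_mul_of_nonneg_left _ (by positivity)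
    simp only [Complex.sub_re, Complex.one_re]; linarith
  nlinarith [(Nat.cast_nonneg n : (0 : ℝ) ≤ n)]

lemma crudeD (hP : Par κ ε η B C3 R ρ Y K0) (h : LHr κ ε η B C3 R ρ Y K0 n F F0 D) {k : ℕ}
    (hk : k ∈ Finset.Ico 2 K0) {w : ℂ}
    (h1 : 1 - κ ≤ w.re) (h2 : w.re ≤ ρ + R + 1) (h3 : |w.im| ≤ Y) : ‖D k w‖ ≤ Real.exp (2 * n) := by
  have := hP.κ0; have := hP.κ1; have := hP.ε0; have := hP.ε1
  obtain ⟨hk1, hk2⟩ := Finset.mem_Ico.1 hk
  have hk' : (2 : ℝ) ≤ k := by exact_mod_cast hk1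
  have hk0 : (0 : ℝ) < k - 1 := by linarith
  refine (h.Dbd k hk w h1 h2 h3).trans ?_
  have h4 : Real.exp (-(2 * n * w.re / (k + 1))) ≤ 1 := by
    rw [Real.exp_le_one_iff, neg_nonpos]
    have : 0 ≤ w.re := by linarith
    positivity
  have h5 : ((k : ℝ) + 1) / (k - 1) ≤ 3 := by
    rw [div_le_iff₀ hk0]; linarith
  have h6 : 1 ≤ ((k : ℝ) + 1) / (k - 1) := by
    rw [one_le_div hk0]; linarith
  have h7 : (((k : ℝ) + 1) / (k - 1)) ^ ((1 - ε) * n) ≤ (3 : ℝ) ^ (n : ℝ) := by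
    calc (((k : ℝ) + 1) / (k - 1)) ^ ((1 - ε) * n) ≤ (((k : ℝ) + 1) / (k - 1)) ^ (n : ℝ) := by
          apply Real.rpow_le_rpow_of_exponent_le h6
          nlinarith [(Nat.cast_nonneg n : (0 : ℝ) ≤ n)]
      _ ≤ (3 : ℝ) ^ (n : ℝ) := Real.rpow_le_rpow (by linarith) h5 (by positivity)
  have h8 : (3 : ℝ) ^ (n : ℝ) ≤ Real.exp (2 * n) := by
    rw [Real.rpow_def_of_pos (by norm_num)]
    apply Real.exp_le_exp.2
    have : Real.log 3 ≤ 2 := by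
      have := Real.log_le_sub_one_of_pos (by norm_num : (0 : ℝ) < 3)
      linarith
    nlinarith [(Nat.cast_nonneg n : (0 : ℝ) ≤ n)]
  calc _ ≤ Real.exp (2 * n) * 1 := mul_le_mul (h7.trans h8) h4 (Real.exp_pos _).le (Real.exp_pos _).le
    _ = _ := mul_one _

lemma exp2 (hP : Par κ ε η B C3 R ρ Y K0) : Real.exp (2 * (ρ + R) + B + C3 + 13) ≤ Y := by
  have hY := hP.Y1
  calc _ ≤ Real.exp (Real.log Y) := Real.exp_le_exp.2 hP.YC
    _ = Y := Real.exp_log (by linarith)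

/-- the kernel on the horizontal lines -/
lemma kerY (hP : Par κ ε η B C3 R ρ Y K0) {w : ℂ} {x : ℝ} {m : ℕ} (hm : n ≤ m) (hw : |w.im| = Y) :
    ‖((w - x) ^ m)⁻¹‖ ≤ Real.exp (-((2 * (ρ + R) + B + C3 + 13) * n)) := by
  have hY := hP.Y1
  have h1 : Y ≤ ‖w - x‖ := by
    have := Complex.abs_im_le_norm (w - x)
    rwa [Complex.sub_im, Complex.ofReal_im, sub_zero, hw] at this
  have h2 : 1 ≤ ‖w - x‖ := hY.trans h1
  rw [norm_inv, norm_pow]
  have h3 : Real.exp ((2 * (ρ + R) + B + C3 + 13) * n) ≤ ‖w - x‖ ^ m := by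
    calc Real.exp ((2 * (ρ + R) + B + C3 + 13) * n) = (Real.exp (2 * (ρ + R) + B + C3 + 13)) ^ n := by
          rw [← Real.exp_nat_mul]; congr 1; ring
      _ ≤ ‖w - x‖ ^ n := pow_le_pow_left₀ (Real.exp_pos _).le ((exp2 hP).trans h1) n
      _ ≤ ‖w - x‖ ^ m := pow_le_pow_right₀ h2 hm
  rw [Real.exp_neg]
  exact inv_anti₀ (Real.exp_pos _) h3

end

end LocG

end Pool.Agent.Zk1.DH
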