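import Pool.Agent.Zk1.DH.G.Loc1

set_option autoImplicit false

/-!
# The local theorem: the half integral equals its main part up to an exponentially small error
-/

namespace Pool.Agent.Zk1.DH

open Complex Filter Topology MeasureTheory Set

namespace LocG

open Rec

lemma shift2 {a b Y M L : ℝ} (hL : |b - a| ≤ L) (hY : 0 < Y) (hM : 0 ≤ M) {f : ℂ → ℂ}
    (hf : ∀ w : ℂ, min a b ≤ w.re → w.re ≤ max a b → |w.im| ≤ Y → DifferentiableAt ℂ f w)
    (hb : ∀ w : ℂ, min a b ≤ w.re → w.re ≤ max a b → |w.im| = Y → ‖f w‖ ≤ M) :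
    ‖VI Y b f - VI Y a f‖ ≤ 2 * L * M := by
  rcases le_total a b with h | h
  · rw [min_eq_left h, max_eq_right h] at hf hb
    refine (shift h hY hM hf hb).trans ?_
    rw [abs_of_nonneg (by linarith)] at hL
    gcongr
  · rw [min_eq_right h, max_eq_left h] at hf hb
    rw [norm_sub_rev]
    refine (shift h hY hM hf hb).trans ?_
    rw [abs_of_nonpos (by linarith)] at hL
    gcongr
    linarith

lemma ker_diff {w : ℂ} {x : ℝ} (h : x < w.re) (m : ℕ) :
    DifferentiableAt ℂ (fun w : ℂ => ((w - x) ^ m)⁻¹) w := by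
  apply DifferentiableAt.inv (by fun_prop)
  apply pow_ne_zero
  intro h0
  have := congrArg Complex.re h0
  simp at this
  linarith

lemma VI_ii {Y a : ℝ} (hY : 0 ≤ Y) {f : ℂ → ℂ}
    (hf : ∀ w : ℂ, w.re = a → |w.im| ≤ Y → DifferentiableAt ℂ f w) :
    IntervalIntegrable (fun y : ℝ => f ⟨a, y⟩) volume (-Y) Y := by
  apply ContinuousOn.intervalIntegrable
  intro y hy
  rw [uIcc_of_le (by linarith)] at hy
  have h1 := (hf ⟨a, y⟩ rfl (abs_le.2 hy)).continuousAt
  exact (ContinuousAt.comp (f := fun y : ℝ => (⟨a, y⟩ : ℂ)) h1 (cont_v a).continuousAt).continuousWithinAt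

section

variable {κ ε η B C3 R ρ Y : ℝ} {K0 n : ℕ} {F F0 : ℂ → ℂ} {D : ℕ → ℂ → ℂ}

lemma N1_le (hP : Par κ ε η B C3 R ρ Y K0) (h : LHr κ ε η B C3 R ρ Y K0 n F F0 D) {xp : ℝ}
    (h0 : 0 ≤ xp) (h1 : xp ≤ R) : ‖F0 1‖ ≤ ‖F0 ((1 + xp : ℝ) : ℂ)‖ := by
  have := hP.κ0; have := hP.R1; have := hP.ρ3; have := hP.Y1; have := hP.η0; have := hP.η1; have := hP.ε1
  have h2 := gr h (a := ((1 + xp : ℝ) : ℂ)) (b := 1) (by rw [Complex.ofReal_re]; linarith)
    (by rw [Complex.ofReal_re]; linarith) (by rw [Complex.ofReal_im, abs_zero]; linarith)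
    (by simp; linarith) (by simp; linarith) (by simp; linarith)
  refine h2.trans ?_
  have e : (1 : ℂ) - ((1 + xp : ℝ) : ℂ) = ((-xp : ℝ) : ℂ) := by push_cast; ring
  rw [e, Complex.ofReal_re, Complex.norm_real, Real.norm_eq_abs, abs_neg, abs_of_nonneg h0]
  have h3 : Real.exp (n * -xp + η * n * xp) ≤ 1 := by
    rw [Real.exp_le_one_iff]
    have h4 : 0 ≤ (n : ℝ) * xp := by positivity
    have h5 : η ≤ 1 := by linarith
    nlinarith
  calc _ ≤ ‖F0 ((1 + xp : ℝ) : ℂ)‖ * 1 := mul_le_mul_of_nonneg_left h3 (norm_nonneg _)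
    _ = _ := mul_one _

lemma partD (hP : Par κ ε η B C3 R ρ Y K0) (h : LHr κ ε η B C3 R ρ Y K0 n F F0 D) {k : ℕ}
    (hk : k ∈ Finset.Ico 2 K0) {x x1 : ℝ} (hxR : |x| ≤ R) (h1 : 1 ≤ x1) (h2 : x1 ≤ R + 1)
    (h3 : x < x1) {m : ℕ} (hm : n ≤ m) :
    ‖VI Y x1 (fun w => F0 w * D k w * ((w - x) ^ m)⁻¹)‖ ≤
      ‖F0 ((1 + max x 0 : ℝ) : ℂ)‖ * ((2 * (ρ + R + 1) + 2 * Y) * Real.exp (-(n * (ε / k)))) := by
  have hκ0 := hP.κ0; have hκ1 := hP.κ1; have hR1 := hP.R1; have hρ3 := hP.ρ3; have hY1 := hP.Y1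
  have hη0 := hP.η0; have hη1 := hP.η1; have hη2 := hP.η2; have hη3 := hP.η3
  have hε0 := hP.ε0; have hε1 := hP.ε1; have hB0 := hP.B0; have hC0 := hP.C30
  obtain ⟨hk1, hk2⟩ := Finset.mem_Ico.1 hk
  have hk' : (2 : ℝ) ≤ k := by exact_mod_cast hk1
  have hkK : (k : ℝ) ≤ K0 := by exact_mod_cast hk2.le
  have hk0 : (0 : ℝ) < k - 1 := by linarith
  set xp : ℝ := max x 0 with hxp
  have hxp0 : 0 ≤ xp := le_max_right _ _
  have hxpx : x ≤ xp := le_max_left _ _
  have hxpR : xp ≤ R := max_le ((le_abs_self _).trans hxR) (by linarith)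
  set X : ℝ := ((k : ℝ) + 1) / (k - 1) with hX
  have hXq : X = 1 + 2 / (k - 1) := by rw [hX]; field_simp; ring
  have hX1 : 1 ≤ X := by rw [hXq]; have : 0 ≤ 2 / ((k : ℝ) - 1) := by positivity
                         linarith
  have hX3 : X ≤ 3 := by rw [hX, div_le_iff₀ hk0]; linarith
  have hXl : 2 / (k : ℝ) ≤ Real.log X := logX hk1
  set b : ℝ := xp + X with hb
  set N1 := ‖F0 1‖ with hN1
  set Nx := ‖F0 ((1 + xp : ℝ) : ℂ)‖ with hNx
  have hN : N1 ≤ Nx := N1_le hP h hxp0 hxpR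
  set f : ℂ → ℂ := fun w => F0 w * D k w * ((w - x) ^ m)⁻¹ with hf
  have hmin1 : 1 ≤ min x1 b := le_min h1 (by rw [hb]; linarith)
  have hminx : x < min x1 b := lt_min h3 (by rw [hb]; linarith)
  have hmax : max x1 b ≤ ρ + R + 1 := max_le (by linarith) (by rw [hb]; linarith)
  -- the shift
  have hs : ‖VI Y b f - VI Y x1 f‖ ≤ 2 * (ρ + R + 1) * (N1 * Real.exp (-(10 * n))) := by
    refine shift2 ?_ (by linarith) (by positivity) ?_ ?_
    · rw [abs_le]; constructor <;> rw [hb] <;> linarith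
    · intro w hw1 hw2 hw3
      obtain ⟨h4, -, -⟩ := h.reg w (by linarith) (by linarith) hw3
      exact (h4.mul (h.Ddiff k hk w (by linarith) (by linarith) hw3)).mul (ker_diff (by linarith) m)
    · intro w hw1 hw2 hw3
      have h4 := crude0 hP h (w := w) (by linarith) (by linarith) hw3.le
      have h5 := crudeD hP h hk (w := w) (by linarith) (by linarith) hw3.le
      have h6 := kerY hP (w := w) (x := x) hm hw3
      rw [hf]
      simp only
      rw [norm_mul, norm_mul]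
      calc ‖F0 w‖ * ‖D k w‖ * ‖((w - x) ^ m)⁻¹‖ ≤ (N1 * Real.exp ((ρ + R + 1) * n)) * Real.exp (2 * n) *
            Real.exp (-((2 * (ρ + R) + B + C3 + 13) * n)) := by gcongr
        _ = N1 * Real.exp ((ρ + R + 1) * n + 2 * n + -((2 * (ρ + R) + B + C3 + 13) * n)) := by
          rw [Real.exp_add, Real.exp_add]; ring
        _ ≤ N1 * Real.exp (-(10 * n)) := by
          apply mul_le_mul_of_nonneg_left _ (norm_nonneg _)
          apply Real.exp_le_exp.2
          have : (0 : ℝ) ≤ n := Nat.cast_nonneg n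
          have h7 : 0 ≤ (ρ + R + B + C3) * n := by positivity
          nlinarith
  -- on the line
  have hl : ‖VI Y b f‖ ≤ Nx * Real.exp (-(n * (ε / k))) * (2 * Y) := by
    refine VI_bound (by linarith) fun y hy => ?_
    set w : ℂ := ⟨b, y⟩ with hw
    have hwr : w.re = b := rfl
    have hwi : w.im = y := rfl
    have hbR : b ≤ ρ + R + 1 := (le_max_right x1 b).trans hmax
    have hb1 : 1 ≤ b := hmin1.trans (min_le_right _ _)
    have h4 := gr h (a := ((1 + xp : ℝ) : ℂ)) (b := w) (by rw [Complex.ofReal_re]; linarith)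
      (by rw [Complex.ofReal_re]; linarith) (by rw [Complex.ofReal_im, abs_zero]; linarith)
      (by rw [hwr]; linarith) (by rw [hwr]; linarith) (by rw [hwi]; exact hy)
    have h5 := h.Dbd k hk w (by rw [hwr]; linarith) (by rw [hwr]; linarith) (by rw [hwi]; exact hy)
    have h6 := inv_pow_le (w := w) (x := x) (X := X) hX1 (by rw [hwr, hb]; linarith) hm
    rw [← hX] at h5
    rw [hwr] at h5
    rw [hwi] at h6
    have e1 : (w - ((1 + xp : ℝ) : ℂ)).re = X - 1 := by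
      rw [Complex.sub_re, Complex.ofReal_re, hwr, hb]; ring
    have e2 : ‖w - ((1 + xp : ℝ) : ℂ)‖ ≤ (X - 1) + |y| := by
      refine (Complex.norm_le_abs_re_add_abs_im _).trans ?_
      rw [e1, Complex.sub_im, Complex.ofReal_im, sub_zero, hwi, abs_of_nonneg (by linarith)]
    rw [e1] at h4
    have hn0 : (0 : ℝ) ≤ n := Nat.cast_nonneg n
    have h4' : ‖F0 w‖ ≤ Nx * Real.exp (n * (X - 1) + η * n * ((X - 1) + |y|)) := by
      refine h4.trans ?_
      gcongr
    have h5' : ‖D k w‖ ≤ Real.exp (Real.log X * ((1 - ε) * n) + -(n * (X - 1))) := by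
      refine h5.trans ?_
      rw [Real.rpow_def_of_pos (by linarith), Real.exp_add]
      apply mul_le_mul_of_nonneg_left _ (Real.exp_pos _).le
      apply Real.exp_le_exp.2
      rw [neg_le_neg_iff]
      have e3 : X - 1 = 2 * X / (k + 1) := by
        rw [hX]; field_simp; ring
      rw [e3]
      have h7 : 2 * X / ((k : ℝ) + 1) ≤ 2 * b / (k + 1) := by
        gcongr; rw [hb]; linarith
      calc (n : ℝ) * (2 * X / (k + 1)) ≤ n * (2 * b / (k + 1)) := by gcongr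
        _ = _ := by ring
    rw [hf]
    simp only
    rw [norm_mul, norm_mul]
    have h8 : ‖F0 w‖ * ‖D k w‖ * ‖((w - x) ^ m)⁻¹‖ ≤
        Nx * Real.exp (n * (X - 1) + η * n * ((X - 1) + |y|)) *
        Real.exp (Real.log X * ((1 - ε) * n) + -(n * (X - 1))) *
        Real.exp (-(n * (Real.log X + 1 / 2 * Real.log (1 + (y / X) ^ 2)))) := by gcongr
    refine h8.trans ?_
    rw [mul_assoc, mul_assoc, ← Real.exp_add, ← Real.exp_add]
    apply mul_le_mul_of_nonneg_left _ (norm_nonneg _)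
    apply Real.exp_le_exp.2
    have h9 := sup_bd (η := η) (y := y) (X := X) (Y := Y) hη0 (by linarith) hy
      (le_trans (mul_le_mul_of_nonneg_left (by linarith) hη0.le) hη3)
    have h10 : η ^ 2 * X ^ 2 ≤ ε / (2 * k) := by
      calc η ^ 2 * X ^ 2 ≤ η ^ 2 * 3 ^ 2 := by gcongr
        _ = 9 * η ^ 2 := by ring
        _ ≤ ε / (2 * K0) := hη2
        _ ≤ ε / (2 * k) := by gcongr
    have h11 : η * (X - 1) ≤ ε / (2 * k) := by
      have h12 : X - 1 ≤ 4 / k := by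
        rw [hXq, add_sub_cancel_left, div_le_div_iff₀ hk0 (by linarith)]
        linarith
      calc η * (X - 1) ≤ (ε / 8) * (4 / k) := by
            apply mul_le_mul hη1 h12 (by linarith) (by positivity)
        _ = ε / (2 * k) := by field_simp; ring
    have h13 : ε * Real.log X ≥ 2 * (ε / k) := by
      have : ε * (2 / (k : ℝ)) ≤ ε * Real.log X := by gcongr
      calc 2 * (ε / k) = ε * (2 / (k : ℝ)) := by ring
        _ ≤ _ := this
    have h14 : ε / (2 * (k : ℝ)) = (ε / k) / 2 := by field_simp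
    rw [h14] at h10 h11
    have h15 : η * (X - 1) + (η * |y| - 1 / 2 * Real.log (1 + (y / X) ^ 2)) - ε * Real.log X ≤
        -(ε / k) := by linarith
    have h16 := mul_le_mul_of_nonneg_left h15 hn0
    calc _ = (n : ℝ) * (η * (X - 1) + (η * |y| - 1 / 2 * Real.log (1 + (y / X) ^ 2)) - ε * Real.log X) := by
          ring
      _ ≤ n * (-(ε / k)) := h16
      _ = _ := by ring
  have h20 : ‖VI Y x1 f‖ ≤ ‖VI Y b f‖ + ‖VI Y b f - VI Y x1 f‖ := by
    have e : VI Y x1 f = VI Y b f - (VI Y b f - VI Y x1 f) := by ring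
    calc ‖VI Y x1 f‖ = ‖VI Y b f - (VI Y b f - VI Y x1 f)‖ := by rw [← e]
      _ ≤ _ := norm_sub_le _ _
  have h21 : Real.exp (-(10 * n)) ≤ Real.exp (-((n : ℝ) * (ε / k))) := by
    apply Real.exp_le_exp.2
    rw [neg_le_neg_iff]
    have : ε / k ≤ 10 := by
      rw [div_le_iff₀ (by linarith)]; nlinarith
    have hn0 : (0 : ℝ) ≤ n := Nat.cast_nonneg n
    nlinarith
  calc ‖VI Y x1 f‖ ≤ ‖VI Y b f‖ + ‖VI Y b f - VI Y x1 f‖ := h20
    _ ≤ Nx * Real.exp (-(n * (ε / k))) * (2 * Y) + 2 * (ρ + R + 1) * (N1 * Real.exp (-(10 * n))) :=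
      add_le_add hl hs
    _ ≤ Nx * Real.exp (-(n * (ε / k))) * (2 * Y) + 2 * (ρ + R + 1) * (Nx * Real.exp (-(n * (ε / k)))) := by
      gcongr
    _ = _ := by ring

lemma partE (hP : Par κ ε η B C3 R ρ Y K0) (h : LHr κ ε η B C3 R ρ Y K0 n F F0 D)
    {x x1 : ℝ} (hxR : |x| ≤ R) (h1 : 1 ≤ x1) (h2 : x1 ≤ R + 1)
    (h3 : x < x1) {m : ℕ} (hm : n ≤ m) :
    ‖VI Y x1 (fun w => (F w - F0 w * (1 + ∑ k ∈ Finset.Ico 2 K0, D k w)) * ((w - x) ^ m)⁻¹)‖ ≤
      ‖F0 ((1 + max x 0 : ℝ) : ℂ)‖ * ((2 * (ρ + R + 1) + 2 * Y) * Real.exp (-(2 * n))) := by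
  have hκ0 := hP.κ0; have hκ1 := hP.κ1; have hR1 := hP.R1; have hρ3 := hP.ρ3; have hY1 := hP.Y1
  have hη0 := hP.η0; have hB0 := hP.B0; have hC0 := hP.C30; have hρB := hP.ρB
  have hn0 : (0 : ℝ) ≤ n := Nat.cast_nonneg n
  set xp : ℝ := max x 0 with hxp
  have hxp0 : 0 ≤ xp := le_max_right _ _
  have hxpx : x ≤ xp := le_max_left _ _
  have hxpR : xp ≤ R := max_le ((le_abs_self _).trans hxR) (by linarith)
  set b : ℝ := xp + ρ with hb
  set N1 := ‖F0 1‖ with hN1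
  set Nx := ‖F0 ((1 + xp : ℝ) : ℂ)‖ with hNx
  have hN : N1 ≤ Nx := N1_le hP h hxp0 hxpR
  set f : ℂ → ℂ := fun w => (F w - F0 w * (1 + ∑ k ∈ Finset.Ico 2 K0, D k w)) * ((w - x) ^ m)⁻¹ with hf
  have hmin1 : 1 ≤ min x1 b := le_min h1 (by rw [hb]; linarith)
  have hminx : x < min x1 b := lt_min h3 (by rw [hb]; linarith)
  have hmax : max x1 b ≤ ρ + R + 1 := max_le (by linarith) (by rw [hb]; linarith)
  have hs : ‖VI Y b f - VI Y x1 f‖ ≤ 2 * (ρ + R + 1) * (N1 * Real.exp (-(2 * n))) := by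
    refine shift2 ?_ (by linarith) (by positivity) ?_ ?_
    · rw [abs_le]; constructor <;> rw [hb] <;> linarith
    · intro w hw1 hw2 hw3
      obtain ⟨h4, -, -⟩ := h.reg w (by linarith) (by linarith) hw3
      refine DifferentiableAt.mul ((h.diff w).sub (h4.mul ?_)) (ker_diff (by linarith) m)
      refine (differentiableAt_const _).add ?_
      exact DifferentiableAt.fun_sum fun k hk => h.Ddiff k hk w (by linarith) (by linarith) hw3
    · intro w hw1 hw2 hw3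
      have h4 := h.Ebd w (by linarith) (by linarith) hw3.le
      have h6 := kerY hP (w := w) (x := x) hm hw3
      rw [hf]
      simp only
      rw [norm_mul]
      calc _ ≤ (N1 * Real.exp (B * n)) * Real.exp (-((2 * (ρ + R) + B + C3 + 13) * n)) := by gcongr
        _ = N1 * Real.exp (B * n + -((2 * (ρ + R) + B + C3 + 13) * n)) := by
          rw [Real.exp_add]; ring
        _ ≤ N1 * Real.exp (-(2 * n)) := by
          apply mul_le_mul_of_nonneg_left _ (norm_nonneg _)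
          apply Real.exp_le_exp.2
          have h7 : 0 ≤ (2 * (ρ + R) + C3 + 11) * n := by positivity
          nlinarith
  have hl : ‖VI Y b f‖ ≤ N1 * Real.exp (-(2 * n)) * (2 * Y) := by
    refine VI_bound (by linarith) fun y hy => ?_
    set w : ℂ := ⟨b, y⟩ with hw
    have hwr : w.re = b := rfl
    have hwi : w.im = y := rfl
    have hbR : b ≤ ρ + R + 1 := (le_max_right x1 b).trans hmax
    have hb1 : 1 ≤ b := hmin1.trans (min_le_right _ _)
    have h4 := h.Ebd w (by rw [hwr]; linarith) (by rw [hwr]; linarith) (by rw [hwi]; exact hy)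
    have h6 := inv_pow_le (w := w) (x := x) (X := ρ) (by linarith) (by rw [hwr, hb]; linarith) hm
    rw [hf]
    simp only
    rw [norm_mul]
    have h7 : ‖((w - x) ^ m)⁻¹‖ ≤ Real.exp (-(n * (B + 2))) := by
      refine h6.trans ?_
      apply Real.exp_le_exp.2
      rw [neg_le_neg_iff]
      have : 0 ≤ Real.log (1 + (w.im / ρ) ^ 2) := Real.log_nonneg (by linarith [sq_nonneg (w.im / ρ)])
      exact mul_le_mul_of_nonneg_left (by linarith) hn0
    calc _ ≤ (N1 * Real.exp (B * n)) * Real.exp (-(n * (B + 2))) := by gcongr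
      _ = N1 * Real.exp (B * n + -(n * (B + 2))) := by rw [Real.exp_add]; ring
      _ = _ := by congr 2; ring
  have h20 : ‖VI Y x1 f‖ ≤ ‖VI Y b f‖ + ‖VI Y b f - VI Y x1 f‖ := by
    have e : VI Y x1 f = VI Y b f - (VI Y b f - VI Y x1 f) := by ring
    calc ‖VI Y x1 f‖ = ‖VI Y b f - (VI Y b f - VI Y x1 f)‖ := by rw [← e]
      _ ≤ _ := norm_sub_le _ _
  calc ‖VI Y x1 f‖ ≤ ‖VI Y b f‖ + ‖VI Y b f - VI Y x1 f‖ := h20
    _ ≤ N1 * Real.exp (-(2 * n)) * (2 * Y) + 2 * (ρ + R + 1) * (N1 * Real.exp (-(2 * n))) :=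
      add_le_add hl hs
    _ ≤ Nx * Real.exp (-(2 * n)) * (2 * Y) + 2 * (ρ + R + 1) * (Nx * Real.exp (-(2 * n))) := by
      gcongr
    _ = _ := by ring

/-- The half integral is its main part up to an exponentially small error. -/
lemma lemP (hP : Par κ ε η B C3 R ρ Y K0) (h : LHr κ ε η B C3 R ρ Y K0 n F F0 D)
    {x x1 : ℝ} (hxR : |x| ≤ R) (h1 : 1 ≤ x1) (h2 : x1 ≤ R + 1)
    (h3 : x < x1) {m : ℕ} (hm : n ≤ m) :
    ‖HF Y x1 (fun w => F w * ((w - x) ^ m)⁻¹) - I * VI Y x1 (fun w => F0 w * ((w - x) ^ m)⁻¹)‖ ≤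
      ‖F0 ((1 + max x 0 : ℝ) : ℂ)‖ * (2 * K0 * (ρ + R + 1 + Y) * Real.exp (-(n * (ε / K0)))) := by
  have hκ0 := hP.κ0; have hκ1 := hP.κ1; have hR1 := hP.R1; have hρ3 := hP.ρ3; have hY1 := hP.Y1
  have hη0 := hP.η0; have hB0 := hP.B0; have hC0 := hP.C30; have hρB := hP.ρB; have hε0 := hP.ε0
  have hε1 := hP.ε1; have hK3 := hP.K3
  have hK3' : (3 : ℝ) ≤ K0 := by exact_mod_cast hK3
  have hn0 : (0 : ℝ) ≤ n := Nat.cast_nonneg n
  set xp : ℝ := max x 0 with hxp
  have hxp0 : 0 ≤ xp := le_max_right _ _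
  have hxpR : xp ≤ R := max_le ((le_abs_self _).trans hxR) (by linarith)
  set N1 := ‖F0 1‖ with hN1
  set Nx := ‖F0 ((1 + xp : ℝ) : ℂ)‖ with hNx
  have hN : N1 ≤ Nx := N1_le hP h hxp0 hxpR
  have hNx0 : 0 ≤ Nx := norm_nonneg _
  set E := Real.exp (-(n * (ε / K0))) with hE
  have hE0 : 0 < E := Real.exp_pos _
  have hεK : ε / K0 ≤ 2 := by rw [div_le_iff₀ (by linarith)]; nlinarith
  have hE2 : Real.exp (-(2 * n)) ≤ E := by
    apply Real.exp_le_exp.2
    nlinarith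
  -- horizontal
  have hh : ∀ y : ℝ, |y| = Y → ‖HI 0 x1 y (fun w => F w * ((w - x) ^ m)⁻¹)‖ ≤ Nx * E * (R + 1) := by
    intro y hy
    have h4 : ‖HI 0 x1 y (fun w => F w * ((w - x) ^ m)⁻¹)‖ ≤ (N1 * Real.exp (-(13 * n))) * (x1 - 0) := by
      refine HI_bound (by linarith) fun u hu1 hu2 => ?_
      have h5 := h.grow ⟨u, y⟩ (by simp only; rw [abs_of_nonneg hu1]; linarith) (by simp only; linarith)
      have h6 := kerY hP (w := ⟨u, y⟩) (x := x) hm (by simp only; exact hy)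
      rw [norm_mul]
      calc _ ≤ (N1 * Real.exp (C3 * n)) * Real.exp (-((2 * (ρ + R) + B + C3 + 13) * n)) := by gcongr
        _ = N1 * Real.exp (C3 * n + -((2 * (ρ + R) + B + C3 + 13) * n)) := by
          rw [Real.exp_add]; ring
        _ ≤ N1 * Real.exp (-(13 * n)) := by
          apply mul_le_mul_of_nonneg_left _ (norm_nonneg _)
          apply Real.exp_le_exp.2
          have h7 : 0 ≤ (2 * (ρ + R) + B) * n := by positivity
          nlinarith
    refine h4.trans ?_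
    have h8 : Real.exp (-(13 * n)) ≤ E := by
      apply Real.exp_le_exp.2
      nlinarith
    rw [sub_zero]
    gcongr
  -- splitting
  have hreg : ∀ w : ℂ, w.re = x1 → |w.im| ≤ Y → DifferentiableAt ℂ F0 w := fun w hw1 hw2 =>
    (h.reg w (by rw [hw1]; linarith) (by rw [hw1]; linarith) hw2).1
  have hker : ∀ w : ℂ, w.re = x1 → DifferentiableAt ℂ (fun w : ℂ => ((w - x) ^ m)⁻¹) w := fun w hw =>
    ker_diff (by rw [hw]; exact h3) m
  set f0 : ℂ → ℂ := fun w => F0 w * ((w - x) ^ m)⁻¹ with hf0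
  set fE : ℂ → ℂ := fun w => (F w - F0 w * (1 + ∑ k ∈ Finset.Ico 2 K0, D k w)) * ((w - x) ^ m)⁻¹ with hfE
  have i0 : IntervalIntegrable (fun y : ℝ => f0 ⟨x1, y⟩) volume (-Y) Y :=
    VI_ii (by linarith) fun w hw1 hw2 => (hreg w hw1 hw2).mul (hker w hw1)
  have iE : IntervalIntegrable (fun y : ℝ => fE ⟨x1, y⟩) volume (-Y) Y :=
    VI_ii (by linarith) fun w hw1 hw2 => by
      refine DifferentiableAt.mul ((h.diff w).sub ((hreg w hw1 hw2).mul ?_)) (hker w hw1)
      refine (differentiableAt_const _).add ?_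
      exact DifferentiableAt.fun_sum fun k hk => h.Ddiff k hk w (by rw [hw1]; linarith) (by rw [hw1]; linarith) hw2
  have iD : ∀ k ∈ Finset.Ico 2 K0, IntervalIntegrable
      (fun y : ℝ => (fun w => F0 w * D k w * ((w - x) ^ m)⁻¹) ⟨x1, y⟩) volume (-Y) Y := fun k hk =>
    VI_ii (by linarith) fun w hw1 hw2 => ((hreg w hw1 hw2).mul
      (h.Ddiff k hk w (by rw [hw1]; linarith) (by rw [hw1]; linarith) hw2)).mul (hker w hw1)
  have hsplit : VI Y x1 (fun w => F w * ((w - x) ^ m)⁻¹) = VI Y x1 f0 +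
      ∑ k ∈ Finset.Ico 2 K0, VI Y x1 (fun w => F0 w * D k w * ((w - x) ^ m)⁻¹) + VI Y x1 fE := by
    unfold VI
    rw [← intervalIntegral.integral_finsetSum iD, ← intervalIntegral.integral_add i0 (by
      have := IntervalIntegrable.sum (Finset.Ico 2 K0) iD
      refine this.congr ?_
      intro y _
      simp only [Finset.sum_apply]), ← intervalIntegral.integral_add _ iE]
    · apply intervalIntegral.integral_congr
      intro y _
      simp only [hf0, hfE]
      have e : ∑ k ∈ Finset.Ico 2 K0, F0 ⟨x1, y⟩ * D k ⟨x1, y⟩ * (((⟨x1, y⟩ : ℂ) - x) ^ m)⁻¹ =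
          F0 ⟨x1, y⟩ * (∑ k ∈ Finset.Ico 2 K0, D k ⟨x1, y⟩) * (((⟨x1, y⟩ : ℂ) - x) ^ m)⁻¹ := by
        rw [Finset.mul_sum, Finset.sum_mul]
      rw [e]
      ring
    · refine i0.add ?_
      have := IntervalIntegrable.sum (Finset.Ico 2 K0) iD
      refine this.congr ?_
      intro y _
      simp only [Finset.sum_apply]
  have hDs : ‖∑ k ∈ Finset.Ico 2 K0, VI Y x1 (fun w => F0 w * D k w * ((w - x) ^ m)⁻¹)‖ ≤
      (K0 - 2) * (Nx * ((2 * (ρ + R + 1) + 2 * Y) * E)) := by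
    refine (norm_sum_le _ _).trans ?_
    have h4 : ∀ k ∈ Finset.Ico 2 K0, ‖VI Y x1 (fun w => F0 w * D k w * ((w - x) ^ m)⁻¹)‖ ≤
        Nx * ((2 * (ρ + R + 1) + 2 * Y) * E) := by
      intro k hk
      refine (partD hP h hk hxR h1 h2 h3 hm).trans ?_
      obtain ⟨hk1, hk2⟩ := Finset.mem_Ico.1 hk
      have hk' : (2 : ℝ) ≤ k := by exact_mod_cast hk1
      have hkK : (k : ℝ) ≤ K0 := by exact_mod_cast hk2.le
      have : Real.exp (-(n * (ε / k))) ≤ E := by
        apply Real.exp_le_exp.2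
        rw [neg_le_neg_iff]
        gcongr
      gcongr
    refine (Finset.sum_le_sum h4).trans ?_
    rw [Finset.sum_const, nsmul_eq_mul, Nat.card_Ico, Nat.cast_sub (by omega)]
    norm_num
  have hEs := partE hP h hxR h1 h2 h3 hm
  have e1 : HF Y x1 (fun w => F w * ((w - x) ^ m)⁻¹) - I * VI Y x1 f0 =
      HI 0 x1 (-Y) (fun w => F w * ((w - x) ^ m)⁻¹) - HI 0 x1 Y (fun w => F w * ((w - x) ^ m)⁻¹) +
      I * (∑ k ∈ Finset.Ico 2 K0, VI Y x1 (fun w => F0 w * D k w * ((w - x) ^ m)⁻¹) + VI Y x1 fE) := by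
    unfold HF
    rw [hsplit]
    ring
  rw [e1]
  have hh1 := hh (-Y) (by rw [abs_neg, abs_of_pos (by linarith)])
  have hh2 := hh Y (abs_of_pos (by linarith))
  calc _ ≤ ‖HI 0 x1 (-Y) (fun w => F w * ((w - x) ^ m)⁻¹)‖ + ‖HI 0 x1 Y (fun w => F w * ((w - x) ^ m)⁻¹)‖ +
        (‖∑ k ∈ Finset.Ico 2 K0, VI Y x1 (fun w => F0 w * D k w * ((w - x) ^ m)⁻¹)‖ + ‖VI Y x1 fE‖) := by
        refine (norm_add_le _ _).trans ?_
        refine add_le_add (norm_sub_le _ _) ?_
        rw [norm_mul, Complex.norm_I, one_mul]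
        exact norm_add_le _ _
    _ ≤ Nx * E * (R + 1) + Nx * E * (R + 1) + ((K0 - 2) * (Nx * ((2 * (ρ + R + 1) + 2 * Y) * E)) +
        Nx * ((2 * (ρ + R + 1) + 2 * Y) * E)) := by
        refine add_le_add (add_le_add hh1 hh2) (add_le_add hDs (hEs.trans ?_))
        gcongr
    _ = Nx * E * (2 * (R + 1) + (K0 - 1) * (2 * (ρ + R + 1) + 2 * Y)) := by ring
    _ ≤ Nx * E * (2 * K0 * (ρ + R + 1 + Y)) := by
        apply mul_le_mul_of_nonneg_left _ (by positivity)
        nlinarith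
    _ = _ := by ring

end

end LocG

end Pool.Agent.Zk1.DH
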