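import Pool.Agent.Zk1.DH.G.Loc3

set_option autoImplicit false

/-!
# The local theorem: asymptotics of the half integral
-/

namespace Pool.Agent.Zk1.DH

open Complex Filter Topology MeasureTheory Set

namespace LocG

open Rec

/-- Further conditions on the parameters. -/
structure Par2 (κ ε η κ1 R Y : ℝ) (K0 : ℕ) : Prop where
  k1 : κ1 = ε / (16 * K0)
  k2 : κ1 ≤ κ / 4
  e1 : η ≤ κ / 1000
  e2 : η * (Y + 1) ≤ 1 / 8
  e3 : (8 + (1 + 2 * R) ^ 2) * η ^ 2 ≤ κ1 / 2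

/-- the constant -/
noncomputable def Cq (R ρ Y : ℝ) (K0 : ℕ) : ℝ := 6 * K0 * (ρ + R + 1 + Y) + 6 * (R + 1) + 4 * Y

/-- the exponent -/
noncomputable def th (κ κ1 : ℝ) : ℝ := min (κ1 / 2) ((κ / 10) ^ 2 / 8)

lemma ball_le {κ x R ρ Y : ℝ} (hκ0 : 0 < κ) (hκ1 : κ ≤ 1 / 4) (hρ3 : 3 ≤ ρ) (hY1 : 1 ≤ Y)
    (hx : -(κ / 4) ≤ x) (hxR : x ≤ R) {w : ℂ} (hw : w ∈ Metric.ball ((x : ℂ) + 1) (κ / 2)) :
    1 - κ ≤ w.re ∧ w.re ≤ ρ + R + 1 ∧ |w.im| ≤ Y := by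
  rw [Metric.mem_ball, dist_eq_norm] at hw
  have h1 := abs_le.1 ((Complex.abs_re_le_norm _).trans hw.le)
  have h2 := (Complex.abs_im_le_norm _).trans hw.le
  simp only [Complex.sub_re, Complex.sub_im, Complex.add_re, Complex.add_im, Complex.ofReal_re,
    Complex.ofReal_im, Complex.one_re, Complex.one_im, add_zero, sub_zero] at h1 h2
  exact ⟨by linarith, by linarith, by linarith⟩

lemma lap (κ : ℝ) (hκ : 0 < κ) (hκ1 : κ ≤ 1 / 4) : ∃ ηL c C : ℝ, ∃ nL : ℕ,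
    0 < ηL ∧ 0 < c ∧ 0 < C ∧ 1 ≤ nL ∧
    ∀ {ε η B C3 R ρ Y : ℝ} {K0 n : ℕ} {F F0 : ℂ → ℂ} {D : ℕ → ℂ → ℂ},
    Par κ ε η B C3 R ρ Y K0 → LHr κ ε η B C3 R ρ Y K0 n F F0 D →
    η ≤ ηL → η ≤ 1 / 8 → nL ≤ n → 2 ≤ η * n → ∀ x : ℝ, -(κ / 4) ≤ x → x ≤ R →
    ∃ w0 : ℂ, ‖w0 - (x + 1)‖ ≤ 3 * η ∧
    c / Real.sqrt n * ‖F0 w0 / (w0 - x) ^ (n + 1)‖ ≤
      ‖∫ y in (-(κ / 10) : ℝ)..(κ / 10), F0 (w0 + I * y) / (w0 + I * y - x) ^ (n + 1)‖ ∧
    ∫ y in (-(κ / 10) : ℝ)..(κ / 10), ‖F0 (w0 + I * y) / (w0 + I * y - x) ^ (n + 1)‖ * |y| ≤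
      C / n * ‖F0 w0 / (w0 - x) ^ (n + 1)‖ := by
  obtain ⟨ηL, c, C, nL, h1, h2, h3, h4, h5⟩ := Pool.Agent.H986R2.K4.lapQ (κ / 2) (κ / 2 / 1000)
    (by positivity) (by linarith) (by positivity) le_rfl
  refine ⟨ηL, c, C, nL, h1, h2, h3, h4, ?_⟩
  intro ε η B C3 R ρ Y K0 n F F0 D hP h hη hη8 hn hn2 x hx hxR
  have hρ3 := hP.ρ3; have hY1 := hP.Y1
  have hn0 : (0 : ℝ) ≤ n := Nat.cast_nonneg n
  obtain ⟨w0, g1, g2, -, -, g5, g6⟩ := h5 n hn x F0 (fun w hw => by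
    obtain ⟨a1, a2, a3⟩ := ball_le hκ hκ1 hρ3 hY1 hx hxR hw
    obtain ⟨b1, b2, b3⟩ := h.reg w a1 a2 a3
    exact ⟨b1, b2, b3.trans (by gcongr)⟩)
  have hw0 : w0 ∈ Metric.ball ((x : ℂ) + 1) (κ / 2) := by
    rw [Metric.mem_ball, dist_eq_norm]
    refine g1.trans_lt ?_
    linarith
  obtain ⟨a1, a2, a3⟩ := ball_le hκ hκ1 hρ3 hY1 hx hxR hw0
  obtain ⟨b1, b2, b3⟩ := h.reg w0 a1 a2 a3
  refine ⟨w0, ?_, ?_, ?_⟩
  · refine sad (L := logDeriv F0 w0) hP.η0 hη8 hn2 ?_ b3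
    rw [← g2]; ring
  · have e : κ / 2 / 5 = κ / 10 := by ring
    rw [e] at g5
    exact g5
  · have e : κ / 2 / 5 = κ / 10 := by ring
    rw [e] at g6
    exact g6

section

variable {κ ε η B C3 R ρ Y κ1 : ℝ} {K0 n : ℕ} {F F0 : ℂ → ℂ} {D : ℕ → ℂ → ℂ}

lemma k1_pos (hP : Par κ ε η B C3 R ρ Y K0) (hQ : Par2 κ ε η κ1 R Y K0) : 0 < κ1 := by
  rw [hQ.k1]
  have := hP.ε0
  have : (3 : ℝ) ≤ K0 := by exact_mod_cast hP.K3
  positivity

lemma th_pos (hP : Par κ ε η B C3 R ρ Y K0) (hQ : Par2 κ ε η κ1 R Y K0) : 0 < th κ κ1 := by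
  have := k1_pos hP hQ
  have := hP.κ0
  unfold th
  exact lt_min (by positivity) (by positivity)

lemma exp1_le : Real.exp 1 ≤ 3 := by
  have := Real.exp_one_lt_d9
  linarith

lemma Nx_le (hP : Par κ ε η B C3 R ρ Y K0) (hQ : Par2 κ ε η κ1 R Y K0)
    (h : LHr κ ε η B C3 R ρ Y K0 n F F0 D) {x : ℝ} {w0 : ℂ}
    (hx : -κ1 ≤ x) (hxR : x ≤ R) (hv : ‖w0 - (x + 1)‖ ≤ 3 * η) :
    ‖F0 ((1 + max x 0 : ℝ) : ℂ)‖ ≤
      ‖F0 w0 / (w0 - x) ^ (n + 1)‖ * (3 * Real.exp (5 / 2 * κ1 * n)) := by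
  have hκ0 := hP.κ0; have hκ1 := hP.κ1; have hR1 := hP.R1; have hρ3 := hP.ρ3; have hY1 := hP.Y1
  have hη0 := hP.η0; have hk2 := hQ.k2; have hk0 := k1_pos hP hQ; have he3 := hQ.e3
  have hηκ := hQ.e1
  have hn0 : (0 : ℝ) ≤ n := Nat.cast_nonneg n
  have h1 := M_low hP h (by linarith) hxR hQ.e1 hv
  have h8 : 8 * η ^ 2 ≤ κ1 / 2 := by
    have : 0 ≤ (1 + 2 * R) ^ 2 * η ^ 2 := by positivity
    nlinarith
  set M := ‖F0 w0 / (w0 - x) ^ (n + 1)‖ with hM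
  have hM0 : 0 ≤ M := norm_nonneg _
  have h2 : ‖F0 ((1 + x : ℝ) : ℂ)‖ ≤ M * Real.exp (8 * η ^ 2 * n + 1) := by
    calc ‖F0 ((1 + x : ℝ) : ℂ)‖ = (‖F0 ((1 + x : ℝ) : ℂ)‖ * Real.exp (-(8 * η ^ 2 * n + 1))) *
          Real.exp (8 * η ^ 2 * n + 1) := by
          rw [mul_assoc, ← Real.exp_add, neg_add_cancel, Real.exp_zero, mul_one]
      _ ≤ _ := by gcongr
  have h3 : ‖F0 ((1 + max x 0 : ℝ) : ℂ)‖ ≤ ‖F0 ((1 + x : ℝ) : ℂ)‖ * Real.exp (2 * κ1 * n) := by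
    rcases le_total 0 x with h0 | h0
    · rw [max_eq_left h0]
      have : 1 ≤ Real.exp (2 * κ1 * n) := Real.one_le_exp (by positivity)
      nlinarith [norm_nonneg (F0 ((1 + x : ℝ) : ℂ))]
    · rw [max_eq_right h0]
      have h4 := gr h (a := ((1 + x : ℝ) : ℂ)) (b := ((1 + 0 : ℝ) : ℂ)) (by rw [Complex.ofReal_re]; linarith)
        (by rw [Complex.ofReal_re]; linarith) (by rw [Complex.ofReal_im, abs_zero]; linarith)
        (by rw [Complex.ofReal_re]; linarith)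
        (by rw [Complex.ofReal_re]; linarith) (by rw [Complex.ofReal_im, abs_zero]; linarith)
      refine h4.trans ?_
      have e : ((1 + 0 : ℝ) : ℂ) - ((1 + x : ℝ) : ℂ) = ((-x : ℝ) : ℂ) := by push_cast; ring
      rw [e, Complex.ofReal_re, Complex.norm_real, Real.norm_eq_abs, abs_of_nonneg (by linarith)]
      gcongr
      have h5 : η * n * -x ≤ 1 * n * κ1 := by
        apply mul_le_mul _ (by linarith) (by linarith) (by positivity)
        gcongr; linarith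
      have h6 : n * -x ≤ n * κ1 := by
        apply mul_le_mul_of_nonneg_left (by linarith) hn0
      linarith
  calc ‖F0 ((1 + max x 0 : ℝ) : ℂ)‖ ≤ ‖F0 ((1 + x : ℝ) : ℂ)‖ * Real.exp (2 * κ1 * n) := h3
    _ ≤ (M * Real.exp (8 * η ^ 2 * n + 1)) * Real.exp (2 * κ1 * n) := by gcongr
    _ = M * (Real.exp 1 * Real.exp (8 * η ^ 2 * n + 2 * κ1 * n)) := by
      rw [mul_assoc, ← Real.exp_add, ← Real.exp_add]; congr 2; ring
    _ ≤ M * (3 * Real.exp (5 / 2 * κ1 * n)) := by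
      gcongr
      · exact exp1_le
      · have := mul_le_mul_of_nonneg_right h8 hn0
        linarith

lemma outer' (hP : Par κ ε η B C3 R ρ Y K0) (hQ : Par2 κ ε η κ1 R Y K0)
    (h : LHr κ ε η B C3 R ρ Y K0 n F F0 D) {x : ℝ} {w0 : ℂ}
    (hx : -κ1 ≤ x) (hxR : x ≤ R) (hv : ‖w0 - (x + 1)‖ ≤ 3 * η) {m : ℕ} (hm : m = n + 1 ∨ m = n + 2)
    {u : ℝ} (hu : κ / 10 ≤ |u|) (huY : |w0.im + u| ≤ Y) :
    ‖F0 (w0 + I * u) * ((w0 + I * u - x) ^ m)⁻¹‖ ≤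
      2 * (‖F0 w0 / (w0 - x) ^ (n + 1)‖ * Real.exp (-(n * ((κ / 10) ^ 2 / 8)))) := by
  have hκ0 := hP.κ0; have hκ1 := hP.κ1; have hk2 := hQ.k2; have he1 := hQ.e1; have hη0 := hP.η0
  have h1 := outer hP h (by linarith) hxR hQ.e1 hQ.e2 hv hu huY
  rw [norm_div, norm_pow] at h1
  set E := ‖F0 w0 / (w0 - x) ^ (n + 1)‖ * Real.exp (-(n * ((κ / 10) ^ 2 / 8))) with hE
  have hE0 : 0 ≤ E := by positivity
  obtain ⟨hw1, hw2⟩ := w0_facts hv
  obtain ⟨hw11, hw12⟩ := abs_le.1 hw1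
  have h2 : 1 / 2 ≤ ‖w0 + I * u - x‖ := by
    refine le_trans ?_ ((le_abs_self _).trans (Complex.abs_re_le_norm _))
    simp
    linarith
  rw [norm_mul, norm_inv, norm_pow, ← div_eq_mul_inv]
  rcases hm with hm | hm
  · rw [hm]; linarith
  · rw [hm, pow_succ, ← div_div]
    rw [div_le_iff₀ (by linarith)]
    nlinarith

lemma lemQ' (hP : Par κ ε η B C3 R ρ Y K0) (hQ : Par2 κ ε η κ1 R Y K0)
    (h : LHr κ ε η B C3 R ρ Y K0 n F F0 D) {x x1 : ℝ} {w0 : ℂ}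
    (hx : -κ1 ≤ x) (hxR : x ≤ R) (hx1 : 1 ≤ x1) (hx2 : x1 ≤ R + 1) (hx3 : x < x1)
    (hv : ‖w0 - (x + 1)‖ ≤ 3 * η) {m : ℕ} (hm : m = n + 1 ∨ m = n + 2) :
    ‖HF Y x1 (fun w => F w * ((w - x) ^ m)⁻¹) -
      I * ∫ u in (-(κ / 10) : ℝ)..(κ / 10), F0 (w0 + I * u) * ((w0 + I * u - x) ^ m)⁻¹‖ ≤
      ‖F0 w0 / (w0 - x) ^ (n + 1)‖ * (Cq R ρ Y K0 * Real.exp (-(th κ κ1 * n))) := by
  have hκ0 := hP.κ0; have hκ1 := hP.κ1; have hR1 := hP.R1; have hρ3 := hP.ρ3; have hY1 := hP.Y1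
  have hη0 := hP.η0; have hk2 := hQ.k2; have hk0 := k1_pos hP hQ; have he3 := hQ.e3
  have hB0 := hP.B0; have hC0 := hP.C30; have he1 := hQ.e1
  have hn0 : (0 : ℝ) ≤ n := Nat.cast_nonneg n
  have hK3 : (3 : ℝ) ≤ K0 := by exact_mod_cast hP.K3
  have hxa : |x| ≤ R := abs_le.2 ⟨by linarith, hxR⟩
  have hmn : n ≤ m := by rcases hm with hm | hm <;> omega
  have hxp0 : 0 ≤ max x 0 := le_max_right _ _
  have hxpR : max x 0 ≤ R := max_le hxR (by linarith)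
  obtain ⟨hw1, hw2⟩ := w0_facts hv
  obtain ⟨hw11, hw12⟩ := abs_le.1 hw1
  have hA := lemP hP h hxa hx1 hx2 hx3 hmn
  have hN1 := N1_le hP h hxp0 hxpR
  have hNx := Nx_le hP hQ h hx hxR hv
  set g : ℂ → ℂ := fun w => F0 w * ((w - x) ^ m)⁻¹ with hg
  set M := ‖F0 w0 / (w0 - x) ^ (n + 1)‖ with hM
  have hM0 : 0 ≤ M := norm_nonneg _
  set Nx := ‖F0 ((1 + max x 0 : ℝ) : ℂ)‖ with hNxd
  have hmin1 : 1 - κ ≤ min x1 w0.re := le_min (by linarith) (by linarith)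
  have hminx : x < min x1 w0.re := lt_min hx3 (by linarith)
  have hmax : max x1 w0.re ≤ ρ + R + 1 := max_le (by linarith) (by linarith)
  have hs : ‖VI Y w0.re g - VI Y x1 g‖ ≤ 2 * (R + 1) * (‖F0 1‖ * Real.exp (-(12 * n))) := by
    refine shift2 ?_ (by linarith) (by positivity) ?_ ?_
    · rw [abs_le]; constructor <;> linarith
    · intro w hw1 hw2 hw3
      obtain ⟨h4, -, -⟩ := h.reg w (by linarith) (by linarith) hw3
      exact h4.mul (ker_diff (by linarith) m)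
    · intro w hw1 hw2 hw3
      have h4 := crude0 hP h (w := w) (by linarith) (by linarith) hw3.le
      have h6 := kerY hP (w := w) (x := x) hmn hw3
      rw [hg]
      simp only
      rw [norm_mul]
      calc _ ≤ (‖F0 1‖ * Real.exp ((ρ + R + 1) * n)) * Real.exp (-((2 * (ρ + R) + B + C3 + 13) * n)) := by
            gcongr
        _ = ‖F0 1‖ * Real.exp ((ρ + R + 1) * n + -((2 * (ρ + R) + B + C3 + 13) * n)) := by
          rw [Real.exp_add]; ring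
        _ ≤ ‖F0 1‖ * Real.exp (-(12 * n)) := by
          apply mul_le_mul_of_nonneg_left _ (norm_nonneg _)
          apply Real.exp_le_exp.2
          have h7 : 0 ≤ (ρ + R + B + C3) * n := by positivity
          nlinarith
  have hr := recentre (Y := Y) (d := κ / 10) (w0 := w0) (g := g)
    (Mo := 2 * (M * Real.exp (-(n * ((κ / 10) ^ 2 / 8))))) (by positivity) (by positivity)
    (by linarith) (fun w hw1 hw2 => by
      obtain ⟨h4, -, -⟩ := h.reg w (by rw [hw1]; linarith) (by rw [hw1]; linarith) hw2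
      exact h4.mul (ker_diff (by rw [hw1]; linarith) m))
    (fun u hu huY => outer' hP hQ h hx hxR hv hm hu huY)
  set A := ∫ u in (-(κ / 10) : ℝ)..(κ / 10), g (w0 + I * u) with hAd
  set E := Real.exp (-(th κ κ1 * n)) with hE
  have hE0 : 0 < E := Real.exp_pos _
  have hθ1 : th κ κ1 ≤ κ1 / 2 := min_le_left _ _
  have hθ2 : th κ κ1 ≤ (κ / 10) ^ 2 / 8 := min_le_right _ _
  have hθn1 : th κ κ1 * n ≤ κ1 / 2 * n := mul_le_mul_of_nonneg_right hθ1 hn0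
  have hθn2 : th κ κ1 * n ≤ (κ / 10) ^ 2 / 8 * n := mul_le_mul_of_nonneg_right hθ2 hn0
  have hεK : ε / K0 = 16 * κ1 := by rw [hQ.k1]; field_simp
  have hkn : 0 ≤ κ1 * n := by positivity
  have hk16 : κ1 ≤ 1 / 16 := by linarith
  have hkn2 : κ1 * n ≤ 1 / 16 * n := by gcongr
  -- term 1
  have t1 : Nx * (2 * K0 * (ρ + R + 1 + Y) * Real.exp (-(n * (ε / K0)))) ≤
      M * (6 * K0 * (ρ + R + 1 + Y) * E) := by
    calc _ ≤ (M * (3 * Real.exp (5 / 2 * κ1 * n))) * (2 * K0 * (ρ + R + 1 + Y) *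
          Real.exp (-(n * (ε / K0)))) := by gcongr
      _ = M * (6 * K0 * (ρ + R + 1 + Y) * Real.exp (5 / 2 * κ1 * n + -(n * (ε / K0)))) := by
        rw [Real.exp_add]; ring
      _ ≤ _ := by
        have : Real.exp (5 / 2 * κ1 * n + -(n * (ε / K0))) ≤ E := by
          apply Real.exp_le_exp.2
          rw [hεK]
          nlinarith
        gcongr
  have t2 : 2 * (R + 1) * (‖F0 1‖ * Real.exp (-(12 * n))) ≤ M * (6 * (R + 1) * E) := by
    calc _ ≤ 2 * (R + 1) * ((M * (3 * Real.exp (5 / 2 * κ1 * n))) * Real.exp (-(12 * n))) := by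
          gcongr
          exact hN1.trans hNx
      _ = M * (6 * (R + 1) * Real.exp (5 / 2 * κ1 * n + -(12 * n))) := by
        rw [Real.exp_add]; ring
      _ ≤ _ := by
        have : Real.exp (5 / 2 * κ1 * n + -(12 * n)) ≤ E := by
          apply Real.exp_le_exp.2
          nlinarith
        gcongr
  have t3 : 2 * (M * Real.exp (-(n * ((κ / 10) ^ 2 / 8)))) * (2 * Y) ≤ M * (4 * Y * E) := by
    have : Real.exp (-(n * ((κ / 10) ^ 2 / 8))) ≤ E := by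
      apply Real.exp_le_exp.2; linarith
    calc _ ≤ 2 * (M * E) * (2 * Y) := by gcongr
      _ = _ := by ring
  have e1 : HF Y x1 (fun w => F w * ((w - x) ^ m)⁻¹) - I * A =
      (HF Y x1 (fun w => F w * ((w - x) ^ m)⁻¹) - I * VI Y x1 g) - I * (VI Y w0.re g - VI Y x1 g) +
      I * (VI Y w0.re g - A) := by ring
  show ‖HF Y x1 (fun w => F w * ((w - x) ^ m)⁻¹) - I * A‖ ≤ _
  rw [e1]
  have n1 : ‖I * (VI Y w0.re g - VI Y x1 g)‖ = ‖VI Y w0.re g - VI Y x1 g‖ := by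
    rw [norm_mul, Complex.norm_I, one_mul]
  have n2 : ‖I * (VI Y w0.re g - A)‖ = ‖VI Y w0.re g - A‖ := by
    rw [norm_mul, Complex.norm_I, one_mul]
  calc _ ≤ ‖HF Y x1 (fun w => F w * ((w - x) ^ m)⁻¹) - I * VI Y x1 g‖ + ‖VI Y w0.re g - VI Y x1 g‖ +
        ‖VI Y w0.re g - A‖ := by
        refine (norm_add_le _ _).trans ?_
        rw [n2]
        refine add_le_add ((norm_sub_le _ _).trans ?_) le_rfl
        rw [n1]
    _ ≤ M * (6 * K0 * (ρ + R + 1 + Y) * E) + M * (6 * (R + 1) * E) + M * (4 * Y * E) :=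
      add_le_add (add_le_add (hA.trans t1) (hs.trans t2)) (hr.trans t3)
    _ = _ := by unfold Cq; ring

lemma lemQ2 (hP : Par κ ε η B C3 R ρ Y K0) (hQ : Par2 κ ε η κ1 R Y K0)
    (h : LHr κ ε η B C3 R ρ Y K0 n F F0 D) {x : ℝ} {w0 : ℂ} {C : ℝ}
    (hx : -κ1 ≤ x) (hxR : x ≤ R) (hv : ‖w0 - (x + 1)‖ ≤ 3 * η)
    (hC : ∫ y in (-(κ / 10) : ℝ)..(κ / 10), ‖F0 (w0 + I * y) / (w0 + I * y - x) ^ (n + 1)‖ * |y| ≤
      C / n * ‖F0 w0 / (w0 - x) ^ (n + 1)‖) :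
    ‖(∫ u in (-(κ / 10) : ℝ)..(κ / 10), F0 (w0 + I * u) * ((w0 + I * u - x) ^ (n + 2))⁻¹) -
      (∫ u in (-(κ / 10) : ℝ)..(κ / 10), F0 (w0 + I * u) * ((w0 + I * u - x) ^ (n + 1))⁻¹) / (w0 - x)‖ ≤
      2 * C / n * ‖F0 w0 / (w0 - x) ^ (n + 1)‖ := by
  have hκ0 := hP.κ0; have hκ1 := hP.κ1; have hR1 := hP.R1; have hρ3 := hP.ρ3; have hY1 := hP.Y1
  have hη0 := hP.η0; have hk2 := hQ.k2; have hk0 := k1_pos hP hQ
  have he1 := hQ.e1
  obtain ⟨hw1, hw2⟩ := w0_facts hv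
  obtain ⟨hw11, hw12⟩ := abs_le.1 hw1
  have hlow : ∀ u : ℝ, 3 / 4 ≤ ‖w0 + I * u - x‖ := by
    intro u
    refine le_trans ?_ ((le_abs_self _).trans (Complex.abs_re_le_norm _))
    simp
    linarith
  have hlow0 : 3 / 4 ≤ ‖w0 - x‖ := by
    have := hlow 0
    simpa using this
  have hne : ∀ u : ℝ, w0 + I * u - x ≠ 0 := fun u => by
    rw [← norm_pos_iff]; linarith [hlow u]
  have hne0 : w0 - x ≠ 0 := by rw [← norm_pos_iff]; linarith
  have hcF : ContinuousOn (fun u : ℝ => F0 (w0 + I * u)) (uIcc (-(κ / 10)) (κ / 10)) := by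
    intro u hu
    rw [uIcc_of_le (by linarith)] at hu
    have h1 := abs_le.2 hu
    have er : (w0 + I * u).re = w0.re := by simp
    have ei : (w0 + I * u).im = w0.im + u := by simp
    obtain ⟨h4, -, -⟩ := h.reg (w0 + I * u) (by rw [er]; linarith) (by rw [er]; linarith) (by
      rw [ei]
      refine (abs_add_le _ _).trans ?_
      linarith)
    have h5 : Continuous fun u : ℝ => w0 + I * (u : ℂ) := by fun_prop
    exact (ContinuousAt.comp (f := fun u : ℝ => w0 + I * (u : ℂ)) h4.continuousAt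
      h5.continuousAt).continuousWithinAt
  have hcK : ∀ m : ℕ, ContinuousOn (fun u : ℝ => ((w0 + I * u - x) ^ m)⁻¹) (uIcc (-(κ / 10)) (κ / 10)) := by
    intro m
    apply ContinuousOn.inv₀ (by fun_prop)
    intro u _
    exact pow_ne_zero _ (hne u)
  have i1 : IntervalIntegrable (fun u : ℝ => F0 (w0 + I * u) * ((w0 + I * u - x) ^ (n + 1))⁻¹) volume
      (-(κ / 10)) (κ / 10) := (hcF.mul (hcK (n + 1))).intervalIntegrable
  have i2 : IntervalIntegrable (fun u : ℝ => F0 (w0 + I * u) * ((w0 + I * u - x) ^ (n + 2))⁻¹) volume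
      (-(κ / 10)) (κ / 10) := (hcF.mul (hcK (n + 2))).intervalIntegrable
  rw [← intervalIntegral.integral_div, ← intervalIntegral.integral_sub i2 (i1.div_const _)]
  have h6 : ‖∫ u in (-(κ / 10) : ℝ)..(κ / 10), (F0 (w0 + I * u) * ((w0 + I * u - x) ^ (n + 2))⁻¹ -
      F0 (w0 + I * u) * ((w0 + I * u - x) ^ (n + 1))⁻¹ / (w0 - x))‖ ≤
      ∫ u in (-(κ / 10) : ℝ)..(κ / 10), 2 * (‖F0 (w0 + I * u) / (w0 + I * u - x) ^ (n + 1)‖ * |u|) := by
    refine intervalIntegral.norm_integral_le_of_norm_le (by linarith) ?_ ?_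
    · refine Filter.Eventually.of_forall fun u _ => ?_
      have e : F0 (w0 + I * u) * ((w0 + I * u - x) ^ (n + 2))⁻¹ -
        F0 (w0 + I * u) * ((w0 + I * u - x) ^ (n + 1))⁻¹ / (w0 - x) =
        F0 (w0 + I * u) / (w0 + I * u - x) ^ (n + 1) * (-(I * u) / ((w0 + I * u - x) * (w0 - x))) := by
        have a1 := hne u
        rw [show n + 2 = n + 1 + 1 by ring, pow_succ _ (n + 1)]
        field_simp
        ring
      rw [e, norm_mul]
      have h7 : ‖-(I * (u : ℂ)) / ((w0 + I * u - x) * (w0 - x))‖ ≤ 2 * |u| := by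
        rw [norm_div, norm_neg, norm_mul, norm_mul, Complex.norm_I, one_mul, Complex.norm_real,
          Real.norm_eq_abs]
        have h8 : 1 / 2 ≤ ‖w0 + I * u - x‖ * ‖w0 - x‖ := by
          have := hlow u
          nlinarith
        rw [div_le_iff₀ (by linarith)]
        nlinarith [abs_nonneg u]
      calc _ ≤ ‖F0 (w0 + I * u) / (w0 + I * u - x) ^ (n + 1)‖ * (2 * |u|) := by gcongr
        _ = _ := by ring
    · apply ContinuousOn.intervalIntegrable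
      apply ContinuousOn.mul continuousOn_const
      apply ContinuousOn.mul _ (by fun_prop)
      apply ContinuousOn.norm
      have h9 : ContinuousOn (fun u : ℝ => (w0 + I * u - x) ^ (n + 1)) (uIcc (-(κ / 10)) (κ / 10)) := by
        fun_prop
      exact hcF.div h9 (fun u _ => pow_ne_zero _ (hne u))
  refine h6.trans ?_
  rw [intervalIntegral.integral_const_mul]
  calc 2 * _ ≤ 2 * (C / n * ‖F0 w0 / (w0 - x) ^ (n + 1)‖) := by gcongr
    _ = _ := by ring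

end

end LocG

end Pool.Agent.Zk1.DH
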