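import Pool.Agent.Zk1.DH.G.Loc4

set_option autoImplicit false

/-!
# The local theorem: near the line and away from it
-/

namespace Pool.Agent.Zk1.DH

open Complex Filter Topology MeasureTheory Set

namespace LocG

open Rec

lemma large2 (c C K θ : ℝ) (hc : 0 < c) (hθ : 0 < θ) : ∃ n0 : ℕ, 1 ≤ n0 ∧ ∀ n : ℕ, n0 ≤ n →
    K * Real.exp (-(θ * n)) + C / n < c / Real.sqrt n := by
  have t1 : Tendsto (fun n : ℕ => Real.sqrt n * Real.exp (-(θ * n))) atTop (𝓝 0) := by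
    have h := (tendsto_rpow_mul_exp_neg_mul_atTop_nhds_zero (1 / 2) θ hθ).comp
      tendsto_natCast_atTop_atTop
    refine h.congr fun n => ?_
    simp only [Function.comp_apply]
    rw [Real.sqrt_eq_rpow]
    ring_nf
  have t2 : Tendsto (fun n : ℕ => Real.sqrt n / n) atTop (𝓝 0) := by
    have h := (tendsto_rpow_neg_atTop (y := 1 / 2) (by norm_num)).comp
      (tendsto_natCast_atTop_atTop (R := ℝ))
    refine h.congr' ?_
    filter_upwards [eventually_ge_atTop 1] with n hn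
    have hn0 : (0 : ℝ) < n := by exact_mod_cast hn
    simp only [Function.comp_apply]
    rw [Real.rpow_neg hn0.le, ← Real.sqrt_eq_rpow]
    have := Real.mul_self_sqrt hn0.le
    have hs : 0 < Real.sqrt n := Real.sqrt_pos.2 hn0
    rw [eq_div_iff hn0.ne', inv_mul_eq_div, div_eq_iff hs.ne']
    exact this.symm
  have t3 : Tendsto (fun n : ℕ => K * (Real.sqrt n * Real.exp (-(θ * n))) +
      C * (Real.sqrt n / n)) atTop (𝓝 0) := by
    have := (t1.const_mul K).add (t2.const_mul C)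
    simpa using this
  have e1 := t3.eventually (gt_mem_nhds hc)
  obtain ⟨n0, h0⟩ := eventually_atTop.1 e1
  refine ⟨max n0 1, le_max_right _ _, ?_⟩
  intro n hn
  have a1 := h0 n (le_trans (le_max_left _ _) hn)
  have hn1 : 1 ≤ n := le_trans (le_max_right _ _) hn
  have hn0 : (0 : ℝ) < n := by exact_mod_cast hn1
  have hs : 0 < Real.sqrt n := Real.sqrt_pos.2 hn0
  rw [lt_div_iff₀ hs]
  calc _ = K * (Real.sqrt n * Real.exp (-(θ * n))) + C * (Real.sqrt n / n) := by field_simp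
    _ < c := a1

section

variable {κ ε η B C3 R ρ Y κ1 : ℝ} {K0 n : ℕ} {F F0 : ℂ → ℂ} {D : ℕ → ℂ → ℂ}

lemma GG_ratio (Y x1 : ℝ) (F : ℂ → ℂ) (m1 m2 : ℕ) (z : ℂ) :
    GG Y x1 F m2 z / GG Y x1 F m1 z =
      HF Y x1 (fun w => F w * ((w - z) ^ m2)⁻¹) / HF Y x1 (fun w => F w * ((w - z) ^ m1)⁻¹) := by
  unfold GG
  rw [mul_div_mul_left]
  apply inv_ne_zero
  simp [Real.pi_ne_zero]

lemma M_pos (hP : Par κ ε η B C3 R ρ Y K0) (hQ : Par2 κ ε η κ1 R Y K0)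
    (h : LHr κ ε η B C3 R ρ Y K0 n F F0 D) {x : ℝ} {w0 : ℂ}
    (hx : -κ1 ≤ x) (hxR : x ≤ R) (hv : ‖w0 - (x + 1)‖ ≤ 3 * η) :
    0 < ‖F0 w0 / (w0 - x) ^ (n + 1)‖ := by
  have hκ0 := hP.κ0; have hκ1 := hP.κ1; have hR1 := hP.R1; have hρ3 := hP.ρ3; have hY1 := hP.Y1
  have hη0 := hP.η0; have hk2 := hQ.k2; have hk0 := k1_pos hP hQ
  have he1 := hQ.e1
  obtain ⟨hw1, hw2⟩ := w0_facts hv
  obtain ⟨hw11, hw12⟩ := abs_le.1 hw1
  obtain ⟨-, h4, -⟩ := h.reg w0 (by linarith) (by linarith) (by linarith)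
  rw [norm_pos_iff]
  apply div_ne_zero h4
  apply pow_ne_zero
  intro h0
  have := congrArg Complex.re h0
  simp at this
  linarith

lemma near (hP : Par κ ε η B C3 R ρ Y K0) (hQ : Par2 κ ε η κ1 R Y K0)
    (h : LHr κ ε η B C3 R ρ Y K0 n F F0 D) {x : ℝ} {w0 : ℂ} {c C : ℝ}
    (hx : |x| ≤ κ1) (hv : ‖w0 - (x + 1)‖ ≤ 3 * η)
    (hc : c / Real.sqrt n * ‖F0 w0 / (w0 - x) ^ (n + 1)‖ ≤
      ‖∫ y in (-(κ / 10) : ℝ)..(κ / 10), F0 (w0 + I * y) / (w0 + I * y - x) ^ (n + 1)‖)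
    (hC : ∫ y in (-(κ / 10) : ℝ)..(κ / 10), ‖F0 (w0 + I * y) / (w0 + I * y - x) ^ (n + 1)‖ * |y| ≤
      C / n * ‖F0 w0 / (w0 - x) ^ (n + 1)‖) (hCpos : 0 < C) (hn1 : 1 ≤ n)
    (hl : 7 * Cq R ρ Y K0 * Real.exp (-(th κ κ1 * n)) + 4 * C / n < c / Real.sqrt n) :
    GG Y 1 F (n + 1) x ≠ 0 ∧ 0 < (GG Y 1 F (n + 2) x / GG Y 1 F (n + 1) x).re := by
  have hκ0 := hP.κ0; have hκ1 := hP.κ1; have hR1 := hP.R1; have hρ3 := hP.ρ3; have hY1 := hP.Y1
  have hη0 := hP.η0; have hk2 := hQ.k2; have hk0 := k1_pos hP hQ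
  have he1 := hQ.e1
  have hK3 : (3 : ℝ) ≤ K0 := by exact_mod_cast hP.K3
  have hn0 : (0 : ℝ) < n := by exact_mod_cast hn1
  obtain ⟨hxl, hxr⟩ := abs_le.1 hx
  have hM := M_pos hP hQ h hxl (by linarith) hv
  have hq1 := lemQ' hP hQ h (x1 := 1) hxl (by linarith) le_rfl (by linarith) (by linarith) hv
    (m := n + 1) (Or.inl rfl)
  have hq2 := lemQ' hP hQ h (x1 := 1) hxl (by linarith) le_rfl (by linarith) (by linarith) hv
    (m := n + 2) (Or.inr rfl)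
  have hq3 := lemQ2 hP hQ h hxl (by linarith) hv hC
  simp only [div_eq_mul_inv (F0 _)] at hc
  set M := ‖F0 w0 / (w0 - x) ^ (n + 1)‖ with hMd
  have hM' : ‖F0 w0 * ((w0 - x) ^ (n + 1))⁻¹‖ = M := by rw [hMd, div_eq_mul_inv]
  rw [hM'] at hc
  set A := ∫ u in (-(κ / 10) : ℝ)..(κ / 10), F0 (w0 + I * u) * ((w0 + I * u - x) ^ (n + 1))⁻¹ with hA
  set A2 := ∫ u in (-(κ / 10) : ℝ)..(κ / 10), F0 (w0 + I * u) * ((w0 + I * u - x) ^ (n + 2))⁻¹ with hA2
  set a1 := HF Y 1 (fun w => F w * ((w - x) ^ (n + 1))⁻¹) with ha1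
  set a2 := HF Y 1 (fun w => F w * ((w - x) ^ (n + 2))⁻¹) with ha2
  set E := Cq R ρ Y K0 * Real.exp (-(th κ κ1 * n)) with hE
  have hCq : 0 < Cq R ρ Y K0 := by unfold Cq; positivity
  have hE0 : 0 < E := by positivity
  have hl' : 7 * E + 4 * C / n < c / Real.sqrt n := by
    rw [hE]; linarith
  have hCn : 0 ≤ C / n := by positivity
  have hCn4 : 4 * C / n = 4 * (C / n) := by ring
  have hCn2 : 2 * C / n = 2 * (C / n) := by ring
  rw [hCn4] at hl'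
  rw [hCn2] at hq3
  obtain ⟨hw1, hw2⟩ := w0_facts hv
  obtain ⟨hw11, hw12⟩ := abs_le.1 hw1
  -- lower bound for a1
  have hIA : ‖I * A‖ = ‖A‖ := by rw [norm_mul, Complex.norm_I, one_mul]
  have hlow : (c / Real.sqrt n - E) * M ≤ ‖a1‖ := by
    have h1 : ‖I * A‖ ≤ ‖a1‖ + ‖a1 - I * A‖ := by
      have e : I * A = a1 - (a1 - I * A) := by ring
      calc ‖I * A‖ = ‖a1 - (a1 - I * A)‖ := by rw [← e]
        _ ≤ _ := norm_sub_le _ _
    rw [hIA] at h1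
    nlinarith
  have ha1pos : 0 < ‖a1‖ := lt_of_lt_of_le (by apply mul_pos _ hM; linarith) hlow
  have ha1ne : a1 ≠ 0 := norm_pos_iff.1 ha1pos
  constructor
  · show (2 * Real.pi * I)⁻¹ * a1 ≠ 0
    apply mul_ne_zero _ ha1ne
    apply inv_ne_zero
    simp [Real.pi_ne_zero]
  rw [GG_ratio]
  show 0 < (a2 / a1).re
  have hz1 : 99 / 100 ≤ (w0 - x).re := by
    simp only [Complex.sub_re, Complex.ofReal_re]; linarith
  have hznorm : 99 / 100 ≤ ‖w0 - x‖ := hz1.trans ((le_abs_self _).trans (Complex.abs_re_le_norm _))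
  have hz0 : w0 - x ≠ 0 := by rw [← norm_pos_iff]; linarith
  have hzsq : Complex.normSq (w0 - x) ≤ 102 / 100 := by
    rw [Complex.normSq_apply]
    simp only [Complex.sub_re, Complex.sub_im, Complex.ofReal_re, Complex.ofReal_im, sub_zero]
    have h31 : w0.re - x ≤ 1 + 3 / 4000 := by linarith
    have h32 : 0 ≤ w0.re - x := by linarith
    obtain ⟨h33, h34⟩ := abs_le.1 (hw2.trans (by linarith : 3 * η ≤ 3 / 4000))
    nlinarith
  have hinv : 1 / 2 < (1 / (w0 - (x : ℂ))).re := by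
    have h10 : 0 < Complex.normSq (w0 - x) := Complex.normSq_pos.2 hz0
    have h11 : (1 / (w0 - (x : ℂ))).re = (w0 - x).re / Complex.normSq (w0 - x) := by
      rw [one_div (w0 - (x : ℂ)), Complex.inv_re]
    rw [h11, lt_div_iff₀ h10]
    linarith
  set er := (a2 - I * A2) + I * (A2 - A / (w0 - x)) - (a1 - I * A) / (w0 - x) with her
  have e1 : a2 / a1 = 1 / (w0 - x) + er / a1 := by
    rw [her]
    field_simp
    ring
  have her1 : ‖er‖ ≤ M * (3 * E + 2 * (C / n)) := by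
    rw [her]
    have h1 : ‖(a1 - I * A) / (w0 - x)‖ ≤ 2 * (M * E) := by
      rw [norm_div, div_le_iff₀ (by linarith)]
      have : 0 ≤ M * E := by positivity
      nlinarith
    have h2 : ‖I * (A2 - A / (w0 - x))‖ ≤ 2 * (C / n) * M := by
      rw [norm_mul, Complex.norm_I, one_mul]; exact hq3
    calc _ ≤ ‖(a2 - I * A2)‖ + ‖I * (A2 - A / (w0 - x))‖ + ‖(a1 - I * A) / (w0 - x)‖ :=
          (norm_sub_le _ _).trans (add_le_add (norm_add_le _ _) le_rfl)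
      _ ≤ M * E + 2 * (C / n) * M + 2 * (M * E) := add_le_add (add_le_add hq2 h2) h1
      _ = _ := by ring
  have her2 : ‖er / a1‖ < 1 / 2 := by
    rw [norm_div, div_lt_iff₀ ha1pos]
    refine lt_of_le_of_lt her1 ?_
    have h3 : (3 * E + 2 * (C / n)) < 1 / 2 * (c / Real.sqrt n - E) := by linarith
    calc M * (3 * E + 2 * (C / n)) < M * (1 / 2 * (c / Real.sqrt n - E)) := by gcongr
      _ = 1 / 2 * ((c / Real.sqrt n - E) * M) := by ring
      _ ≤ _ := by gcongr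
  rw [e1, Complex.add_re]
  have h4 := (abs_le.1 ((Complex.abs_re_le_norm (er / a1)).trans her2.le)).1
  have h5 : -(1 / 2) ≤ (er / a1).re := h4
  linarith

/-- monotonicity of the half integral near the line -/
lemma near_concl {Y : ℝ} (hY : 0 < Y) {F : ℂ → ℂ} (hF : Differentiable ℂ F)
    (hs : ∀ z : ℂ, F (-((starRingEnd ℂ) z)) = (starRingEnd ℂ) (F z)) {κ1 : ℝ} (hκ1 : κ1 < 1) {n : ℕ}
    (hR : ∀ y : ℝ, |y| ≤ κ1 → GG Y 1 F (n + 1) y ≠ 0 ∧ 0 < (GG Y 1 F (n + 2) y / GG Y 1 F (n + 1) y).re)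
    {x : ℝ} (hx : |x| ≤ κ1) (h0 : iteratedDeriv n F x = 0) : x = 0 ∧ iteratedDeriv (n + 1) F x ≠ 0 := by
  have e1 := split hY (by norm_num : (0 : ℝ) < 1) hF hs n (x := x) (lt_of_le_of_lt hx hκ1)
  rw [h0, zero_div] at e1
  have e2 : GG Y 1 F (n + 1) x = -((-1) ^ n * (starRingEnd ℂ) (GG Y 1 F (n + 1) ((-x : ℝ) : ℂ))) :=
    eq_neg_of_add_eq_zero_left e1.symm
  have e3 : ‖GG Y 1 F (n + 1) x‖ = ‖GG Y 1 F (n + 1) ((-x : ℝ) : ℂ)‖ := by
    rw [e2, norm_neg, norm_mul, norm_pow, norm_neg, norm_one, one_pow, one_mul, RCLike.norm_conj]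
  have hmono : StrictMonoOn (fun y : ℝ => ‖GG Y 1 F (n + 1) (y : ℂ)‖ ^ 2) (Icc (-κ1) κ1) := by
    have hder : ∀ y ∈ Icc (-κ1) κ1,
        HasDerivAt (fun y : ℝ => ‖GG Y 1 F (n + 1) (y : ℂ)‖ ^ 2)
          (2 * inner ℝ (GG Y 1 F (n + 1) (y : ℂ)) (((n + 1 : ℕ) : ℂ) * GG Y 1 F (n + 2) (y : ℂ))) y := by
      intro y hy
      have h5 := hasDeriv_GG (Y := Y) (x1 := 1) (by norm_num) hF (n + 1) (z := (y : ℂ))
        (by rw [Complex.ofReal_re]; linarith [hy.2]) (by rw [Complex.ofReal_im, abs_zero]; exact hY)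
      have h7 : HasDerivAt (fun y : ℝ => GG Y 1 F (n + 1) (y : ℂ))
          (((n + 1 : ℕ) : ℂ) * GG Y 1 F (n + 2) (y : ℂ)) y := h5.comp_ofReal
      exact h7.norm_sq
    refine strictMonoOn_of_deriv_pos (convex_Icc _ _)
      (fun y hy => (hder y hy).continuousAt.continuousWithinAt) fun y hy => ?_
    have hy' := interior_subset hy
    rw [(hder y hy').deriv, Complex.inner]
    obtain ⟨h8, h9⟩ := hR y (abs_le.2 hy')
    set A := GG Y 1 F (n + 1) (y : ℂ)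
    set B := GG Y 1 F (n + 2) (y : ℂ)
    have h10 : (starRingEnd ℂ) A * (((n + 1 : ℕ) : ℂ) * B) =
        (((n : ℝ) + 1) * Complex.normSq A : ℝ) * (B / A) := by
      have h11 : (starRingEnd ℂ) A * A = (Complex.normSq A : ℂ) := by
        rw [mul_comm, Complex.mul_conj]
      push_cast
      rw [← h11]
      field_simp
    have h12 : 0 < Complex.normSq A := Complex.normSq_pos.2 h8
    rw [mul_comm (((n + 1 : ℕ) : ℂ) * B) _, h10, Complex.re_ofReal_mul]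
    positivity
  have hre : x = 0 := by
    have h13 : (fun y : ℝ => ‖GG Y 1 F (n + 1) (y : ℂ)‖ ^ 2) x =
        (fun y : ℝ => ‖GG Y 1 F (n + 1) (y : ℂ)‖ ^ 2) (-x) := by
      simp only
      rw [e3]
    have h14 := hmono.injOn (abs_le.1 hx)
      (show -x ∈ Icc (-κ1) κ1 from by
        rw [← abs_neg] at hx; exact abs_le.1 hx) h13
    linarith
  refine ⟨hre, fun h20 => ?_⟩
  have e4 := split hY (by norm_num : (0 : ℝ) < 1) hF hs (n + 1) (x := x) (lt_of_le_of_lt hx hκ1)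
  rw [h20, zero_div] at e4
  rw [hre] at e2 e4
  obtain ⟨h8, h9⟩ := hR x hx
  rw [hre] at h8 h9
  rw [neg_zero] at e2 e4
  set A := GG Y 1 F (n + 1) ((0 : ℝ) : ℂ)
  set B := GG Y 1 F (n + 2) ((0 : ℝ) : ℂ) with hB
  have e5 : B = (-1) ^ n * (starRingEnd ℂ) B := by
    have h21 : (0 : ℂ) = B + (-1) ^ (n + 1) * (starRingEnd ℂ) B := e4
    rw [pow_succ] at h21
    have h22 := h21
    linear_combination -h22
  have e6 : B / A = -((starRingEnd ℂ) (B / A)) := by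
    have hA' : (starRingEnd ℂ) A ≠ 0 := by simpa using h8
    have hp : ((-1 : ℂ)) ^ n ≠ 0 := pow_ne_zero _ (by norm_num)
    rw [map_div₀]
    nth_rewrite 1 [e5]
    nth_rewrite 1 [e2]
    field_simp
  have e7 := congrArg Complex.re e6
  rw [Complex.neg_re, Complex.conj_re] at e7
  linarith

lemma far (hP : Par κ ε η B C3 R ρ Y K0) (hQ : Par2 κ ε η κ1 R Y K0)
    (h : LHr κ ε η B C3 R ρ Y K0 n F F0 D) {x : ℝ} {w0 : ℂ} {c : ℝ}
    (hx1 : κ1 ≤ x) (hx2 : x ≤ R) (hv : ‖w0 - (x + 1)‖ ≤ 3 * η)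
    (hc : c / Real.sqrt n * ‖F0 w0 / (w0 - x) ^ (n + 1)‖ ≤
      ‖∫ y in (-(κ / 10) : ℝ)..(κ / 10), F0 (w0 + I * y) / (w0 + I * y - x) ^ (n + 1)‖)
    (hl : 7 * Cq R ρ Y K0 * Real.exp (-(th κ κ1 * n)) < c / Real.sqrt n) :
    ‖HF Y (1 + x) (fun w => F w * ((w - ((-x : ℝ) : ℂ)) ^ (n + 1))⁻¹)‖ <
      ‖HF Y (1 + x) (fun w => F w * ((w - x) ^ (n + 1))⁻¹)‖ := by
  have hκ0 := hP.κ0; have hκ1 := hP.κ1; have hR1 := hP.R1; have hρ3 := hP.ρ3; have hY1 := hP.Y1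
  have hη0 := hP.η0; have hk2 := hQ.k2; have hk0 := k1_pos hP hQ; have hη3 := hP.η3
  have he1 := hQ.e1; have he3 := hQ.e3
  have hK3 : (3 : ℝ) ≤ K0 := by exact_mod_cast hP.K3
  have hn0 : (0 : ℝ) ≤ n := Nat.cast_nonneg n
  have hx0 : 0 < x := by linarith
  have hM := M_pos hP hQ h (by linarith) hx2 hv
  have hq1 := lemQ' hP hQ h (x1 := 1 + x) (by linarith) hx2 (by linarith) (by linarith) (by linarith) hv
    (m := n + 1) (Or.inl rfl)
  have hNx := Nx_le hP hQ h (by linarith) hx2 hv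
  have hlow' := M_low hP h (by linarith) hx2 hQ.e1 hv
  have hN1 := N1_le hP h hx0.le hx2
  simp only [div_eq_mul_inv (F0 _)] at hc
  set M := ‖F0 w0 / (w0 - x) ^ (n + 1)‖ with hMd
  have hM' : ‖F0 w0 * ((w0 - x) ^ (n + 1))⁻¹‖ = M := by rw [hMd, div_eq_mul_inv]
  rw [hM'] at hc
  set A := ∫ u in (-(κ / 10) : ℝ)..(κ / 10), F0 (w0 + I * u) * ((w0 + I * u - x) ^ (n + 1))⁻¹ with hA
  set a1 := HF Y (1 + x) (fun w => F w * ((w - x) ^ (n + 1))⁻¹) with ha1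
  set b1 := HF Y (1 + x) (fun w => F w * ((w - ((-x : ℝ) : ℂ)) ^ (n + 1))⁻¹) with hb1
  have hCq : 0 < Cq R ρ Y K0 := by unfold Cq; positivity
  set E := Real.exp (-(th κ κ1 * n)) with hE
  have hE0 : 0 < E := Real.exp_pos _
  have hIA : ‖I * A‖ = ‖A‖ := by rw [norm_mul, Complex.norm_I, one_mul]
  have hlow : (c / Real.sqrt n - Cq R ρ Y K0 * E) * M ≤ ‖a1‖ := by
    have h1 : ‖I * A‖ ≤ ‖a1‖ + ‖a1 - I * A‖ := by
      have e : I * A = a1 - (a1 - I * A) := by ring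
      calc ‖I * A‖ = ‖a1 - (a1 - I * A)‖ := by rw [← e]
        _ ≤ _ := norm_sub_le _ _
    rw [hIA] at h1
    nlinarith
  -- the exponents
  have h8 : 8 * η ^ 2 + (1 + 2 * R) ^ 2 * η ^ 2 ≤ κ1 / 2 := by linarith
  have hθ1 : th κ κ1 ≤ κ1 / 2 := min_le_left _ _
  have hθn1 : th κ κ1 * n ≤ κ1 / 2 * n := mul_le_mul_of_nonneg_right hθ1 hn0
  -- F0 at 1 + x
  have hFx : ‖F0 ((1 + x : ℝ) : ℂ)‖ ≤ M * (3 * Real.exp (8 * η ^ 2 * n)) := by
    calc ‖F0 ((1 + x : ℝ) : ℂ)‖ = (‖F0 ((1 + x : ℝ) : ℂ)‖ * Real.exp (-(8 * η ^ 2 * n + 1))) *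
          Real.exp (8 * η ^ 2 * n + 1) := by
          rw [mul_assoc, ← Real.exp_add, neg_add_cancel, Real.exp_zero, mul_one]
      _ ≤ M * Real.exp (8 * η ^ 2 * n + 1) := by gcongr
      _ = M * (Real.exp 1 * Real.exp (8 * η ^ 2 * n)) := by
        rw [← Real.exp_add]; congr 2; ring
      _ ≤ _ := by gcongr; exact exp1_le
  -- the integral with the pole at `-x`
  have hp := lemP hP h (x := -x) (x1 := 1 + x) (m := n + 1) (by rw [abs_neg, abs_of_pos hx0]; exact hx2)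
    (by linarith) (by linarith) (by linarith) (by omega)
  rw [max_eq_right (by linarith : -x ≤ 0)] at hp
  have e0 : (((1 : ℝ) + 0 : ℝ) : ℂ) = 1 := by push_cast; ring
  rw [e0] at hp
  have hεK : ε / K0 = 16 * κ1 := by rw [hQ.k1]; field_simp
  rw [hεK] at hp
  have hv1 : ‖VI Y (1 + x) (fun w => F0 w * ((w - ((-x : ℝ) : ℂ)) ^ (n + 1))⁻¹)‖ ≤
      (‖F0 ((1 + x : ℝ) : ℂ)‖ * Real.exp (n * (-κ1 + (1 + 2 * R) ^ 2 * η ^ 2))) * (2 * Y) := by
    refine VI_bound (by linarith) fun y hy => ?_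
    set w : ℂ := ⟨1 + x, y⟩ with hw
    have hwr : w.re = 1 + x := rfl
    have hwi : w.im = y := rfl
    have h4 := gr h (a := ((1 + x : ℝ) : ℂ)) (b := w) (by rw [Complex.ofReal_re]; linarith)
      (by rw [Complex.ofReal_re]; linarith) (by rw [Complex.ofReal_im, abs_zero]; linarith)
      (by rw [hwr]; linarith) (by rw [hwr]; linarith) (by rw [hwi]; exact hy)
    have h6 := inv_pow_le (w := w) (x := -x) (X := 1 + 2 * x) (m := n + 1) (n := n) (by linarith)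
      (by rw [hwr]; linarith) (by omega)
    have e1 : (w - ((1 + x : ℝ) : ℂ)).re = 0 := by
      rw [Complex.sub_re, Complex.ofReal_re, hwr]; ring
    have e2 : ‖w - ((1 + x : ℝ) : ℂ)‖ ≤ |y| := by
      refine (Complex.norm_le_abs_re_add_abs_im _).trans ?_
      rw [e1, Complex.sub_im, Complex.ofReal_im, sub_zero, hwi, abs_zero, zero_add]
    rw [e1, mul_zero, zero_add] at h4
    rw [hwi] at h6
    have h4' : ‖F0 w‖ ≤ ‖F0 ((1 + x : ℝ) : ℂ)‖ * Real.exp (η * n * |y|) := by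
      refine h4.trans ?_
      gcongr
    rw [norm_mul]
    refine (mul_le_mul h4' h6 (norm_nonneg _) (by positivity)).trans ?_
    rw [mul_assoc, ← Real.exp_add]
    apply mul_le_mul_of_nonneg_left _ (norm_nonneg _)
    apply Real.exp_le_exp.2
    have h9 := sup_bd (η := η) (y := y) (X := 1 + 2 * x) (Y := Y) hη0 (by linarith) hy
      (le_trans (mul_le_mul_of_nonneg_left (by linarith) hη0.le) hη3)
    have h10 : η ^ 2 * (1 + 2 * x) ^ 2 ≤ (1 + 2 * R) ^ 2 * η ^ 2 := by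
      rw [mul_comm]
      gcongr
    have h11 : κ1 ≤ Real.log (1 + 2 * x) := by
      have h12 := log_ge (v := 2 * κ1) (by linarith) (by linarith)
      have h13 : Real.log (1 + 2 * κ1) ≤ Real.log (1 + 2 * x) := Real.log_le_log (by linarith) (by linarith)
      linarith
    have h14 : (η * |y| - 1 / 2 * Real.log (1 + (y / (1 + 2 * x)) ^ 2)) - Real.log (1 + 2 * x) ≤
        -κ1 + (1 + 2 * R) ^ 2 * η ^ 2 := by linarith
    have h15 := mul_le_mul_of_nonneg_left h14 hn0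
    calc _ = (n : ℝ) * ((η * |y| - 1 / 2 * Real.log (1 + (y / (1 + 2 * x)) ^ 2)) - Real.log (1 + 2 * x)) := by
          ring
      _ ≤ _ := h15
  have hv2 : (‖F0 ((1 + x : ℝ) : ℂ)‖ * Real.exp (n * (-κ1 + (1 + 2 * R) ^ 2 * η ^ 2))) * (2 * Y) ≤
      M * (6 * Y * E) := by
    calc _ ≤ ((M * (3 * Real.exp (8 * η ^ 2 * n))) * Real.exp (n * (-κ1 + (1 + 2 * R) ^ 2 * η ^ 2))) *
          (2 * Y) := by gcongr
      _ = M * (6 * Y * Real.exp (8 * η ^ 2 * n + n * (-κ1 + (1 + 2 * R) ^ 2 * η ^ 2))) := by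
        rw [Real.exp_add]; ring
      _ ≤ _ := by
        have : Real.exp (8 * η ^ 2 * n + n * (-κ1 + (1 + 2 * R) ^ 2 * η ^ 2)) ≤ E := by
          apply Real.exp_le_exp.2
          have h9 := mul_le_mul_of_nonneg_right h8 hn0
          nlinarith
        gcongr
  have hp2 : ‖F0 1‖ * (2 * K0 * (ρ + R + 1 + Y) * Real.exp (-(n * (16 * κ1)))) ≤
      M * (6 * K0 * (ρ + R + 1 + Y) * E) := by
    calc _ ≤ (M * (3 * Real.exp (8 * η ^ 2 * n))) *
          (2 * K0 * (ρ + R + 1 + Y) * Real.exp (-(n * (16 * κ1)))) := by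
          gcongr
          exact hN1.trans hFx
      _ = M * (6 * K0 * (ρ + R + 1 + Y) * Real.exp (8 * η ^ 2 * n + -(n * (16 * κ1)))) := by
        rw [Real.exp_add]; ring
      _ ≤ _ := by
        have : Real.exp (8 * η ^ 2 * n + -(n * (16 * κ1))) ≤ E := by
          apply Real.exp_le_exp.2
          have h9 := mul_le_mul_of_nonneg_right h8 hn0
          have h10 : 0 ≤ (1 + 2 * R) ^ 2 * η ^ 2 * n := by positivity
          have h11 : 0 ≤ κ1 * n := by positivity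
          nlinarith
        gcongr
  have hb : ‖b1‖ ≤ M * (2 * Cq R ρ Y K0 * E) := by
    have e : b1 = (b1 - I * VI Y (1 + x) (fun w => F0 w * ((w - ((-x : ℝ) : ℂ)) ^ (n + 1))⁻¹)) +
        I * VI Y (1 + x) (fun w => F0 w * ((w - ((-x : ℝ) : ℂ)) ^ (n + 1))⁻¹) := by ring
    calc ‖b1‖ = ‖(b1 - I * VI Y (1 + x) (fun w => F0 w * ((w - ((-x : ℝ) : ℂ)) ^ (n + 1))⁻¹)) +
        I * VI Y (1 + x) (fun w => F0 w * ((w - ((-x : ℝ) : ℂ)) ^ (n + 1))⁻¹)‖ := by rw [← e]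
      _ ≤ ‖b1 - I * VI Y (1 + x) (fun w => F0 w * ((w - ((-x : ℝ) : ℂ)) ^ (n + 1))⁻¹)‖ +
        ‖VI Y (1 + x) (fun w => F0 w * ((w - ((-x : ℝ) : ℂ)) ^ (n + 1))⁻¹)‖ := by
        refine (norm_add_le _ _).trans (le_of_eq ?_)
        rw [norm_mul, Complex.norm_I, one_mul]
      _ ≤ M * (6 * K0 * (ρ + R + 1 + Y) * E) + M * (6 * Y * E) :=
        add_le_add (hp.trans hp2) (hv1.trans hv2)
      _ = M * ((6 * K0 * (ρ + R + 1 + Y) + 6 * Y) * E) := by ring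
      _ ≤ _ := by
        gcongr
        unfold Cq
        have : 0 ≤ (K0 : ℝ) * (ρ + R + 1) := by positivity
        nlinarith
  refine lt_of_le_of_lt hb (lt_of_lt_of_le ?_ hlow)
  have h20 : 0 < Cq R ρ Y K0 * E := by positivity
  rw [mul_comm M]
  apply mul_lt_mul_of_pos_right _ hM
  linarith

end

end LocG

end Pool.Agent.Zk1.DH
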