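import Pool.Agent.Zk1.DH.G.Loc5
import Pool.Agent.Zk1.DH.Spec

set_option autoImplicit false

/-!
# The local theorem: assembly
-/

namespace Pool.Agent.Zk1.DH

open Complex Filter Topology MeasureTheory Set

namespace LocG

open Rec

lemma logDeriv_shift (f : ℂ → ℂ) (c w : ℂ) : logDeriv (fun w => f (w + c)) w = logDeriv f (w + c) := by
  rw [logDeriv_apply, logDeriv_apply, deriv_comp_add_const]

/-- The normalised local situation, with `D k` differentiable in the region only. -/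
structure LHg (κ ε η B C3 R ρ Y : ℝ) (K0 n : ℕ) (F F0 : ℂ → ℂ) (D : ℕ → ℂ → ℂ) : Prop where
  diff : Differentiable ℂ F
  symm : ∀ z : ℂ, F (-((starRingEnd ℂ) z)) = (starRingEnd ℂ) (F z)
  reg : ∀ w : ℂ, 1 - κ ≤ w.re → w.re ≤ ρ + R + 1 → |w.im| ≤ Y + 1 →
    DifferentiableAt ℂ F0 w ∧ F0 w ≠ 0 ∧ ‖logDeriv F0 w - n‖ ≤ η * n
  Ddiff : ∀ k ∈ Finset.Ico 2 K0, ∀ w : ℂ, 1 - κ ≤ w.re → w.re ≤ ρ + R + 1 → |w.im| ≤ Y + 1 →
    DifferentiableAt ℂ (D k) w
  Dbd : ∀ k ∈ Finset.Ico 2 K0, ∀ w : ℂ, 1 - κ ≤ w.re → w.re ≤ ρ + R + 1 → |w.im| ≤ Y + 1 →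
    ‖D k w‖ ≤ (((k : ℝ) + 1) / (k - 1)) ^ ((1 - ε) * n) * Real.exp (-(2 * n * w.re / (k + 1)))
  Ebd : ∀ w : ℂ, 1 - κ ≤ w.re → w.re ≤ ρ + R + 1 → |w.im| ≤ Y + 1 →
    ‖F w - F0 w * (1 + ∑ k ∈ Finset.Ico 2 K0, D k w)‖ ≤ ‖F0 1‖ * Real.exp (B * n)
  grow : ∀ w : ℂ, |w.re| ≤ R + 2 → |w.im| ≤ Y → ‖F w‖ ≤ ‖F0 1‖ * Real.exp (C3 * n)

/-- The local theorem. Constants are chosen in the order `ε, κ, (R, B), ρ, C3, Y, K0, η, n0`. -/
def S_LOCg : Prop := ∀ ε : ℝ, 0 < ε → ε ≤ 1 / 2 → ∃ κ : ℝ, 0 < κ ∧ κ ≤ ε ∧ κ ≤ 1 / 4 ∧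
  ∀ R B : ℝ, 1 ≤ R → 0 < B → ∃ ρ0 : ℝ, 3 ≤ ρ0 ∧ ∀ ρ : ℝ, ρ0 ≤ ρ → ∀ C3 : ℝ, 0 < C3 → ∃ Y0 : ℝ, 1 ≤ Y0 ∧
  ∀ Y : ℝ, Y0 ≤ Y → ∃ a1 : ℝ, 0 < a1 ∧ ∀ (K0 : ℕ) (η : ℝ), 3 ≤ K0 → 1 / (K0 : ℝ) ≤ a1 → 0 < η → η ≤ 40 / K0 →
  ∃ n0 : ℕ, ∀ (n : ℕ) (F F0 : ℂ → ℂ) (D : ℕ → ℂ → ℂ), n0 ≤ n → LHg κ ε η B C3 R ρ Y K0 n F F0 D →
  ∀ z : ℂ, |z.re| ≤ R → |z.im| ≤ 1 / 50 → iteratedDeriv n F z = 0 →
    z.re = 0 ∧ iteratedDeriv (n + 1) F z ≠ 0

lemma trans {κ ε η B C3 R ρ Y : ℝ} {K0 n : ℕ} {F F0 : ℂ → ℂ} {D : ℕ → ℂ → ℂ}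
    (h : LHg κ ε η B C3 R ρ Y K0 n F F0 D) (hκ : 0 < κ) (hη0 : 0 < η) (hη1 : η ≤ 1) (hY : 2 ≤ Y)
    (hR : 1 ≤ R) (hρ : 3 ≤ ρ) {y0 : ℝ} (hy : |y0| ≤ 1 / 50) :
    LHr κ ε η (B + 1) (C3 + 1) R ρ (Y - 1) K0 n (fun w => F (w + y0 * I)) (fun w => F0 (w + y0 * I))
      (fun k w => D k (w + y0 * I)) := by
  have hn0 : (0 : ℝ) ≤ n := Nat.cast_nonneg n
  have er : ∀ w : ℂ, (w + y0 * I).re = w.re := fun w => by simp
  have ei : ∀ w : ℂ, (w + y0 * I).im = w.im + y0 := fun w => by simp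
  have hi : ∀ w : ℂ, |w.im| ≤ Y - 1 → |(w + y0 * I).im| ≤ Y := fun w hw => by
    rw [ei]
    refine (abs_add_le _ _).trans ?_
    linarith
  have hi1 : ∀ w : ℂ, |w.im| ≤ Y - 1 → |(w + y0 * I).im| ≤ Y + 1 := fun w hw => by
    linarith [hi w hw]
  have hN : ‖F0 1‖ ≤ ‖F0 (1 + y0 * I)‖ * Real.exp n := by
    have h1 := Pool.Agent.W571.SD.grow (F := F0) (M := n) (η := η) (1 + y0 * I) 1 (fun t ht0 ht1 => by
      refine h.reg _ ?_ ?_ ?_
      · simp; linarith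
      · simp; linarith
      · simp
        have h2 : |y0 + -(t * y0)| ≤ 1 / 50 := by
          have e : y0 + -(t * y0) = (1 - t) * y0 := by ring
          rw [e, abs_mul, abs_of_nonneg (by linarith)]
          have := abs_nonneg y0
          nlinarith
        linarith)
    refine h1.trans ?_
    apply mul_le_mul_of_nonneg_left _ (norm_nonneg _)
    apply Real.exp_le_exp.2
    have e1 : (1 : ℂ) - (1 + y0 * I) = -(y0 * I) := by ring
    rw [e1, norm_neg, norm_mul, Complex.norm_I, mul_one, Complex.norm_real, Real.norm_eq_abs]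
    have e2 : (-((y0 : ℂ) * I)).re = 0 := by simp
    rw [e2, mul_zero, zero_add]
    have h3 : η * n * |y0| ≤ 1 * n * 1 := by
      gcongr
      linarith
    linarith
  refine ⟨?_, ?_, ?_, ?_, ?_, ?_, ?_⟩
  · exact h.diff.comp (differentiable_id.add_const _)
  · intro z
    have e : -((starRingEnd ℂ) z) + y0 * I = -((starRingEnd ℂ) (z + y0 * I)) := by
      rw [map_add, map_mul, Complex.conj_ofReal, Complex.conj_I]; ring
    rw [e, h.symm]
  · intro w h1 h2 h3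
    obtain ⟨a1, a2, a3⟩ := h.reg (w + y0 * I) (by rw [er]; exact h1) (by rw [er]; exact h2) (hi1 w h3)
    refine ⟨?_, a2, ?_⟩
    · exact a1.comp w (differentiableAt_id.add_const _)
    · rw [logDeriv_shift]; exact a3
  · intro k hk w h1 h2 h3
    exact (h.Ddiff k hk (w + y0 * I) (by rw [er]; exact h1) (by rw [er]; exact h2) (hi1 w h3)).comp w
      (differentiableAt_id.add_const _)
  · intro k hk w h1 h2 h3
    have := h.Dbd k hk (w + y0 * I) (by rw [er]; exact h1) (by rw [er]; exact h2) (hi1 w h3)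
    rw [er] at this
    exact this
  · intro w h1 h2 h3
    have := h.Ebd (w + y0 * I) (by rw [er]; exact h1) (by rw [er]; exact h2) (hi1 w h3)
    refine this.trans ?_
    calc ‖F0 1‖ * Real.exp (B * n) ≤ (‖F0 (1 + y0 * I)‖ * Real.exp n) * Real.exp (B * n) := by gcongr
      _ = _ := by rw [mul_assoc, ← Real.exp_add]; congr 2; ring
  · intro w h1 h2
    have := h.grow (w + y0 * I) (by rw [er]; exact h1) (hi w h2)
    refine this.trans ?_
    calc ‖F0 1‖ * Real.exp (C3 * n) ≤ (‖F0 (1 + y0 * I)‖ * Real.exp n) * Real.exp (C3 * n) := by gcongr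
      _ = _ := by rw [mul_assoc, ← Real.exp_add]; congr 2; ring

/-- The local theorem. -/
theorem sLOCg : S_LOCg := by
  intro ε hε0 hε1
  have hκ0 : 0 < ε / 2 := by positivity
  obtain ⟨ηL, c, C, nL, hηL, hc, hC, hnL, hlap⟩ := lap (ε / 2) hκ0 (by linarith)
  refine ⟨ε / 2, hκ0, by linarith, by linarith, ?_⟩
  intro R B hR hB
  refine ⟨max 3 (Real.exp (B + 3)), le_max_left _ _, ?_⟩
  intro ρ hρ C3 hC3
  have hρ3 : 3 ≤ ρ := (le_max_left _ _).trans hρ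
  have hρB : B + 3 ≤ Real.log ρ := by
    rw [Real.le_log_iff_exp_le (by linarith)]
    exact (le_max_right _ _).trans hρ
  refine ⟨1 + Real.exp (2 * (ρ + R) + B + C3 + 15), by linarith [Real.exp_pos (2 * (ρ + R) + B + C3 + 15)], ?_⟩
  intro Y hY
  have hY1 : Real.exp (2 * (ρ + R) + B + C3 + 15) ≤ Y - 1 := by linarith
  have hY2 : 1 ≤ Y - 1 := le_trans (Real.one_le_exp (by positivity)) hY1
  have hYC : 2 * (ρ + R) + B + C3 + 15 ≤ Real.log (Y - 1) := by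
    rw [Real.le_log_iff_exp_le (by linarith)]
    exact hY1
  set q : ℝ := 8 + (1 + 2 * R) ^ 2 with hq
  have hq8 : 8 ≤ q := by rw [hq]; nlinarith [sq_nonneg (1 + 2 * R)]
  set a1 : ℝ := min (min (ε / (51200 * q)) (ε / 80000)) (min (ηL / 40) (1 / (320 * (ρ + R + Y + 2))))
    with ha1
  have ha10 : 0 < a1 := by
    rw [ha1]
    refine lt_min (lt_min (by positivity) (by positivity)) (lt_min (by positivity) ?_)
    have : 0 < Y := by linarith
    positivity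
  have ha11 : a1 ≤ ε / (51200 * q) := (min_le_left _ _).trans (min_le_left _ _)
  have ha12 : a1 ≤ ε / 80000 := (min_le_left _ _).trans (min_le_right _ _)
  have ha13 : a1 ≤ ηL / 40 := (min_le_right _ _).trans (min_le_left _ _)
  have ha14 : a1 ≤ 1 / (320 * (ρ + R + Y + 2)) := (min_le_right _ _).trans (min_le_right _ _)
  refine ⟨a1, ha10, ?_⟩
  intro K0 η hK3 hKa hη0 hη
  have hK3' : (3 : ℝ) ≤ K0 := by exact_mod_cast hK3
  have hK0 : (0 : ℝ) < K0 := by linarith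
  have hη40 : η ≤ 40 * a1 := by
    calc η ≤ 40 / K0 := hη
      _ = 40 * (1 / K0) := by ring
      _ ≤ _ := by gcongr
  have hηsq : η ^ 2 ≤ 1600 * a1 / K0 := by
    calc η ^ 2 = η * η := by ring
      _ ≤ (40 * a1) * (40 / K0) := by gcongr
      _ = _ := by ring
  have hY0 : 0 < Y := by linarith
  have hηs : η * (ρ + R + Y + 2) ≤ 1 / 8 := by
    have h1 : 0 < ρ + R + Y + 2 := by linarith
    calc η * (ρ + R + Y + 2) ≤ (40 * (1 / (320 * (ρ + R + Y + 2)))) * (ρ + R + Y + 2) := by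
          gcongr
          exact hη40.trans (by gcongr)
      _ = 1 / 8 := by field_simp; norm_num
  have hηε : η ≤ ε / 2000 := by
    calc η ≤ 40 * a1 := hη40
      _ ≤ 40 * (ε / 80000) := by gcongr
      _ = _ := by ring
  have hη3 : η ^ 2 * q ≤ ε / (32 * K0) := by
    calc η ^ 2 * q ≤ (1600 * a1 / K0) * q := by gcongr
      _ ≤ (1600 * (ε / (51200 * q)) / K0) * q := by gcongr
      _ = _ := by field_simp; norm_num
  set κ1 : ℝ := ε / (16 * K0) with hκ1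
  have hκ10 : 0 < κ1 := by positivity
  have hP : Par (ε / 2) ε η (B + 1) (C3 + 1) R ρ (Y - 1) K0 := by
    refine ⟨hκ0, by linarith, hε0, hε1, hR, by linarith, hρ3, by linarith, by linarith, hY2, by linarith, hK3,
      hη0, by linarith, ?_, ?_⟩
    · have h1 : η ^ 2 * 9 ≤ η ^ 2 * q := by
        apply mul_le_mul_of_nonneg_left _ (sq_nonneg _)
        rw [hq]; nlinarith
      have h2 : ε / (32 * K0) ≤ ε / (2 * K0) := by gcongr; norm_num
      linarith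
    · have h1 : η * (ρ + R + (Y - 1) + 2) ≤ η * (ρ + R + Y + 2) :=
        mul_le_mul_of_nonneg_left (by linarith) hη0.le
      linarith
  have hQ : Par2 (ε / 2) ε η κ1 R (Y - 1) K0 := by
    refine ⟨hκ1, ?_, by linarith, ?_, ?_⟩
    · rw [hκ1]
      rw [div_le_iff₀ (by positivity)]
      nlinarith
    · have h1 : η * (Y - 1 + 1) ≤ η * (ρ + R + Y + 2) :=
        mul_le_mul_of_nonneg_left (by linarith) hη0.le
      linarith
    · rw [← hq, mul_comm, hκ1]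
      refine hη3.trans (le_of_eq ?_)
      field_simp
      norm_num
  have hθ := th_pos hP hQ
  obtain ⟨n1, hn1, hlarge⟩ := large2 c (4 * C) (7 * Cq R ρ (Y - 1) K0) (th (ε / 2) κ1) hc hθ
  obtain ⟨n2, hn2⟩ := exists_nat_ge (2 / η)
  refine ⟨max nL (max n1 n2), ?_⟩
  intro n F F0 D hn hLH z hzR hzI hz0
  have hnL' : nL ≤ n := (le_max_left _ _).trans hn
  have hn1' : n1 ≤ n := ((le_max_left _ _).trans (le_max_right _ _)).trans hn
  have hn2' : n2 ≤ n := ((le_max_right _ _).trans (le_max_right _ _)).trans hn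
  have hn1n : 1 ≤ n := hn1.trans hn1'
  have hnη : 2 ≤ η * n := by
    have h1 : 2 / η ≤ n := hn2.trans (by exact_mod_cast hn2')
    rw [div_le_iff₀ hη0] at h1
    linarith
  have hL := hlarge n hn1'
  have h := trans hLH hκ0 hη0 (by linarith) (by linarith) hR hρ3 hzI
  set y0 := z.im with hy0
  set G : ℂ → ℂ := fun w => F (w + y0 * I) with hG
  set G0 : ℂ → ℂ := fun w => F0 (w + y0 * I) with hG0
  set x := z.re with hx
  have hiter : ∀ m : ℕ, iteratedDeriv m G x = iteratedDeriv m F z := by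
    intro m
    have h1 := congrFun (iteratedDeriv_comp_add_const m F (y0 * I)) (x : ℂ)
    rw [hG]
    rw [h1, hy0, hx, Complex.re_add_im]
  rw [← hiter] at hz0
  rw [← hiter]
  have hCn : 0 ≤ 4 * C / n := by positivity
  have hηL' : η ≤ ηL := by
    calc η ≤ 40 * a1 := hη40
      _ ≤ 40 * (ηL / 40) := by gcongr
      _ = ηL := by ring
  rcases le_or_gt |x| κ1 with hxκ | hxκ
  · refine near_concl (Y := Y - 1) (by linarith) h.diff h.symm (κ1 := κ1) (by linarith [hQ.k2]) (n := n) ?_ hxκ hz0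
    intro y hy
    obtain ⟨hyl, hyr⟩ := abs_le.1 hy
    obtain ⟨w0, g1, g2, g3⟩ := hlap hP h hηL' (by linarith) hnL' hnη y (by linarith [hQ.k2]) (by
      linarith [hQ.k2])
    exact near hP hQ h hy g1 g2 g3 hC hn1n hL
  · exfalso
    -- the two halves differ in size
    have hfar : ∀ x' : ℝ, κ1 ≤ x' → x' ≤ R →
        ‖GG (Y - 1) (1 + x') G (n + 1) ((-x' : ℝ) : ℂ)‖ < ‖GG (Y - 1) (1 + x') G (n + 1) (x' : ℂ)‖ := by
      intro x' h1 h2
      obtain ⟨w0, g1, g2, g3⟩ := hlap hP h hηL' (by linarith) hnL' hnη x' (by linarith) h2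
      have h3 := far hP hQ h h1 h2 g1 g2 (by linarith)
      show ‖(2 * Real.pi * I : ℂ)⁻¹ * _‖ < ‖(2 * Real.pi * I : ℂ)⁻¹ * _‖
      rw [norm_mul, norm_mul]
      apply mul_lt_mul_of_pos_left h3
      rw [norm_pos_iff]
      apply inv_ne_zero
      simp [Real.pi_ne_zero]
    have hx' := hfar |x| hxκ.le hzR
    have e1 := split (Y := Y - 1) (x1 := 1 + |x|) (by linarith) (by positivity) h.diff h.symm n (x := x)
      (by linarith)
    rw [hz0, zero_div] at e1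
    have e2 : GG (Y - 1) (1 + |x|) G (n + 1) x =
        -((-1) ^ n * (starRingEnd ℂ) (GG (Y - 1) (1 + |x|) G (n + 1) ((-x : ℝ) : ℂ))) :=
      eq_neg_of_add_eq_zero_left e1.symm
    have e3 : ‖GG (Y - 1) (1 + |x|) G (n + 1) x‖ = ‖GG (Y - 1) (1 + |x|) G (n + 1) ((-x : ℝ) : ℂ)‖ := by
      rw [e2, norm_neg, norm_mul, norm_pow, norm_neg, norm_one, one_pow, one_mul, RCLike.norm_conj]
    rcases le_total 0 x with h0 | h0
    · rw [abs_of_nonneg h0] at hx' e3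
      exact absurd hx' (by rw [e3]; exact lt_irrefl _)
    · rw [abs_of_nonpos h0, neg_neg] at hx'
      rw [abs_of_nonpos h0] at e3
      exact absurd hx' (by rw [e3]; exact lt_irrefl _)

end LocG

end Pool.Agent.Zk1.DH
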